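import Pool.Agent.KS6_35.OV.Sol

/-! One linear equation for the system. -/

set_option autoImplicit false

namespace Pool.Agent.KS6_35.OV

open Finset

theorem digits_zero (T : ℤ) (R : ℕ) : ∀ d : ℕ → ℤ, ∑ r ∈ range (R + 1), d r * T ^ r = 0 →
    (∀ r < R, 2 * |d r| < T) → ∀ r ≤ R, d r = 0 := by
  induction R with
  | zero =>
    intro d h _ r hr
    have : r = 0 := by omega
    subst this
    simpa using h
  | succ R ih =>
    intro d h hd
    have hT : 0 < T := by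
      have := hd 0 (by omega)
      have := abs_nonneg (d 0)
      omega
    rw [sum_range_succ'] at h
    have h1 : ∑ r ∈ range (R + 1), d (r + 1) * T ^ (r + 1) =
        T * ∑ r ∈ range (R + 1), d (r + 1) * T ^ r := by
      rw [mul_sum]
      exact Finset.sum_congr rfl fun r _ => by ring
    rw [h1, pow_zero, mul_one] at h
    have h2 : T ∣ d 0 := ⟨-∑ r ∈ range (R + 1), d (r + 1) * T ^ r, by linarith⟩
    have h3 : d 0 = 0 := by
      refine Int.eq_zero_of_abs_lt_dvd h2 ?_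
      have := hd 0 (by omega)
      have := abs_nonneg (d 0)
      omega
    rw [h3, add_zero] at h
    have h4 : ∑ r ∈ range (R + 1), d (r + 1) * T ^ r = 0 := by
      rcases mul_eq_zero.1 h with h | h
      · omega
      · exact h
    have h5 := ih (fun r => d (r + 1)) h4 (fun r hr => hd (r + 1) (by omega))
    intro r hr
    rcases r with _ | r
    · exact h3
    · exact h5 r (by omega)

/-- the base of the aggregation -/
def TT (β M : ℕ) : ℤ := (2 ^ β) ^ (M + 4)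

/-- the weight of `L_b` -/
def wL (Y : Tab) (β c M : ℕ) (b : Fin Y.m) : ℤ :=
  (2 ^ β - 1) * TT β M ^ (Y.m + 1) + ((b : ℕ) - 2 ^ β * Y.e b) * TT β M ^ Y.m -
    (2 ^ c - 1) * TT β M ^ (b : ℕ)

/-- the weight of `Q_b` and `Q'_b` -/
def wQ (Y : Tab) (β M : ℕ) (b : Fin Y.m) (i : Bool) : ℤ :=
  (2 ^ β - 1) * TT β M ^ (Y.m + 1) +
    (if i then 0 else ((Y.m : ℤ) - 2 ^ β * (Y.a b : ℤ))) * TT β M ^ Y.m + TT β M ^ (b : ℕ)

/-- the right-hand side -/
def JJ (Y : Tab) (β c M k : ℕ) : ℤ :=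
  2 ^ c * ((2 ^ β) ^ M - 1) * TT β M ^ (Y.m + 1) + k * TT β M ^ Y.m

variable {Y : Tab} {β c : ℕ}

section

variable {M k : ℕ} (hB : Big Y β c) (hB4 : 4 ≤ 2 ^ β)

include hB hB4

theorem B4 : (4 : ℤ) ≤ 2 ^ β := by exact_mod_cast hB4

theorem two_c_le : (2 : ℤ) ^ c ≤ 2 ^ β := by
  have : 2 ^ c ≤ 2 ^ β := le_trans (Nat.le_mul_of_pos_left _ Y.hm) hB.hm
  exact_mod_cast this

theorem m_le : (Y.m : ℤ) ≤ 2 ^ β := by
  have : Y.m ≤ 2 ^ β := le_trans (Nat.le_mul_of_pos_right _ (by positivity)) hB.hm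
  exact_mod_cast this

theorem ae_lt (b : Fin Y.m) : ((Y.a b : ℤ) < 2 ^ β) ∧ ((Y.e b : ℤ) < 2 ^ β) := by
  have h : Y.a b + Y.e b < 2 ^ β :=
    lt_of_le_of_lt (Nat.le_mul_of_pos_right _ (by positivity)) (hB.ha b)
  constructor
  · have : Y.a b < 2 ^ β := by omega
    exact_mod_cast this
  · have : Y.e b < 2 ^ β := by omega
    exact_mod_cast this

theorem B3_le_T : 4 * ((2 : ℤ) ^ β) ^ (M + 3) ≤ TT β M := by
  have h := B4 hB hB4
  unfold TT
  have : ((2 : ℤ) ^ β) ^ (M + 4) = 2 ^ β * (2 ^ β) ^ (M + 3) := by ring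
  rw [this]
  exact mul_le_mul_of_nonneg_right h (by positivity)

theorem B2_le : ((2 : ℤ) ^ β) ^ 2 ≤ (2 ^ β) ^ (M + 3) := by
  have h := B4 hB hB4
  exact pow_le_pow_right₀ (by linarith) (by omega)

theorem B1_le : (2 : ℤ) ^ β ≤ (2 ^ β) ^ (M + 3) := by
  have h := B4 hB hB4
  calc (2 : ℤ) ^ β = (2 ^ β) ^ 1 := by ring
    _ ≤ _ := pow_le_pow_right₀ (by linarith) (by omega)

theorem T_pos : 0 < TT β M := by unfold TT; positivity

theorem abs_coef (u v : ℤ) (hu : 0 ≤ u) (hu2 : u ≤ 2 ^ β) (hv : 0 ≤ v) (hv2 : v < 2 ^ β) :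
    |u - 2 ^ β * v| ≤ (2 ^ β) ^ 2 := by
  have h := B4 hB hB4
  have h1 : 2 ^ β * v ≤ (2 ^ β) ^ 2 := by
    rw [sq]; exact mul_le_mul_of_nonneg_left hv2.le (by positivity)
  have h2 : (2 : ℤ) ^ β ≤ (2 ^ β) ^ 2 := by nlinarith
  have h3 : 0 ≤ (2 : ℤ) ^ β * v := by positivity
  rw [abs_le]
  constructor <;> linarith

theorem wL_ge (b : Fin Y.m) : TT β M ^ (Y.m + 1) ≤ wL Y β c M b := by
  have h4 := B4 hB hB4
  have hT := T_pos (M := M) hB hB4
  have h3T := B3_le_T (M := M) hB hB4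
  have h2 := B2_le (M := M) hB hB4
  have hc := two_c_le hB hB4
  have hm := m_le hB hB4
  obtain ⟨_, he⟩ := ae_lt hB hB4 b
  have hbm : ((b : ℕ) : ℤ) ≤ 2 ^ β := le_trans (by exact_mod_cast b.2.le) hm
  have ha := abs_coef hB hB4 ((b : ℕ) : ℤ) (Y.e b) (by positivity) hbm (by positivity) he
  rw [abs_le] at ha
  have h1 := B1_le (M := M) hB hB4
  have hTm : 0 < TT β M ^ Y.m := by positivity
  have hTb : TT β M ^ (b : ℕ) ≤ TT β M ^ Y.m := pow_le_pow_right₀ (by linarith) b.2.le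
  have e1 : -((2 ^ β) ^ 2) * TT β M ^ Y.m ≤ ((b : ℕ) - 2 ^ β * Y.e b) * TT β M ^ Y.m :=
    mul_le_mul_of_nonneg_right ha.1 hTm.le
  have hc1 : (1 : ℤ) ≤ 2 ^ c := one_le_pow₀ (by norm_num)
  have e2 : (2 ^ c - 1) * TT β M ^ (b : ℕ) ≤ 2 ^ β * TT β M ^ Y.m :=
    mul_le_mul (by linarith) hTb (by positivity) (by positivity)
  have e3 : ((2 ^ β) ^ 2 + 2 ^ β) * TT β M ^ Y.m ≤ TT β M * TT β M ^ Y.m :=
    mul_le_mul_of_nonneg_right (by linarith) hTm.le
  have e4 : TT β M ^ (Y.m + 1) = TT β M * TT β M ^ Y.m := by ring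
  have e5 : 2 * (TT β M ^ (Y.m + 1)) ≤ (2 ^ β - 1) * TT β M ^ (Y.m + 1) :=
    mul_le_mul_of_nonneg_right (by linarith) (by positivity)
  unfold wL
  nlinarith

theorem wQ_ge (b : Fin Y.m) (i : Bool) : TT β M ^ (Y.m + 1) ≤ wQ Y β M b i := by
  have h4 := B4 hB hB4
  have hT := T_pos (M := M) hB hB4
  have h3T := B3_le_T (M := M) hB hB4
  have h2 := B2_le (M := M) hB hB4
  have hm := m_le hB hB4
  obtain ⟨he, _⟩ := ae_lt hB hB4 b
  have ha := abs_coef hB hB4 (Y.m : ℤ) (Y.a b) (by positivity) hm (by positivity) he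
  rw [abs_le] at ha
  have hTm : 0 < TT β M ^ Y.m := by positivity
  have hTb : 0 < TT β M ^ (b : ℕ) := by positivity
  have e0 : -((2 ^ β) ^ 2) ≤ (if i then 0 else ((Y.m : ℤ) - 2 ^ β * Y.a b)) := by
    split_ifs
    · have : (0 : ℤ) ≤ (2 ^ β) ^ 2 := by positivity
      linarith
    · exact ha.1
  have e1 : -((2 ^ β) ^ 2) * TT β M ^ Y.m ≤
      (if i then 0 else ((Y.m : ℤ) - 2 ^ β * Y.a b)) * TT β M ^ Y.m :=
    mul_le_mul_of_nonneg_right e0 hTm.le
  have e3 : ((2 ^ β) ^ 2) * TT β M ^ Y.m ≤ TT β M * TT β M ^ Y.m :=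
    mul_le_mul_of_nonneg_right (by
      have : (0 : ℤ) < (2 ^ β) ^ (M + 3) := by positivity
      linarith) hTm.le
  have e4 : TT β M ^ (Y.m + 1) = TT β M * TT β M ^ Y.m := by ring
  have e5 : 2 * (TT β M ^ (Y.m + 1)) ≤ (2 ^ β - 1) * TT β M ^ (Y.m + 1) :=
    mul_le_mul_of_nonneg_right (by linarith) (by positivity)
  unfold wQ
  nlinarith

/-- the weighted sum, with the errors of the equations -/
theorem weighted (L : Fin Y.m → ℕ) (Q : Fin Y.m → Bool → ℕ) :
    ∑ b, wL Y β c M b * L b + ∑ b, ∑ i, wQ Y β M b i * Q b i - JJ Y β c M k =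
      ∑ b : Fin Y.m, ((Q b false : ℤ) + Q b true - (2 ^ c - 1) * L b) * TT β M ^ (b : ℕ) +
      (∑ b : Fin Y.m, (((b : ℕ) - 2 ^ β * Y.e b) * L b +
        ((Y.m : ℤ) - 2 ^ β * Y.a b) * Q b false) - k) * TT β M ^ Y.m +
      ((2 ^ β - 1) * ∑ b, ((L b : ℤ) + Q b false + Q b true) - 2 ^ c * ((2 ^ β) ^ M - 1)) *
        TT β M ^ (Y.m + 1) := by
  have e : ∑ b, wL Y β c M b * L b + ∑ b, ∑ i, wQ Y β M b i * Q b i =
      ∑ b : Fin Y.m, ((Q b false : ℤ) + Q b true - (2 ^ c - 1) * L b) * TT β M ^ (b : ℕ) +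
      (∑ b : Fin Y.m, (((b : ℕ) - 2 ^ β * Y.e b) * L b +
        ((Y.m : ℤ) - 2 ^ β * Y.a b) * Q b false)) * TT β M ^ Y.m +
      ((2 ^ β - 1) * ∑ b, ((L b : ℤ) + Q b false + Q b true)) * TT β M ^ (Y.m + 1) := by
    rw [sum_mul, mul_sum, sum_mul, ← sum_add_distrib, ← sum_add_distrib, ← sum_add_distrib]
    refine Finset.sum_congr rfl fun b _ => ?_
    rw [Fintype.sum_bool]
    unfold wL wQ
    simp only [if_true, Bool.false_eq_true, if_false]
    ring
  rw [e]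
  unfold JJ
  ring

theorem agg (hk : k < 2 ^ β) (L : Fin Y.m → ℕ) (Q : Fin Y.m → Bool → ℕ) :
    ∑ b, wL Y β c M b * L b + ∑ b, ∑ i, wQ Y β M b i * Q b i = JJ Y β c M k ↔
      (∑ b, L b = ∑ t ∈ range M, (2 ^ β) ^ t) ∧ (∀ b, Q b false + Q b true = (2 ^ c - 1) * L b) ∧
        ∑ b, (Y.m * Q b false + b * L b) = k + 2 ^ β * ∑ b, (Y.a b * Q b false + Y.e b * L b) := by
  have hw := weighted (M := M) (k := k) hB hB4 L Q
  have h4 := B4 hB hB4
  have hc1 : (1 : ℤ) ≤ 2 ^ c := one_le_pow₀ (by norm_num)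
  have hc := two_c_le hB hB4
  -- the equations over the integers
  have i2 : ∀ b, Q b false + Q b true = (2 ^ c - 1) * L b ↔
      (Q b false : ℤ) + Q b true - (2 ^ c - 1) * L b = 0 := by
    intro b
    rw [sub_eq_zero]
    constructor
    · intro h
      have := congrArg (Nat.cast : ℕ → ℤ) h
      push_cast [Nat.cast_sub (show 1 ≤ 2 ^ c from Nat.one_le_two_pow)] at this
      exact this
    · intro h
      have : ((Q b false + Q b true : ℕ) : ℤ) = (((2 ^ c - 1) * L b : ℕ) : ℤ) := by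
        push_cast [Nat.cast_sub (show 1 ≤ 2 ^ c from Nat.one_le_two_pow)]
        exact h
      exact_mod_cast this
  have i3 : ∑ b, (Y.m * Q b false + b * L b) = k + 2 ^ β * ∑ b, (Y.a b * Q b false + Y.e b * L b) ↔
      ∑ b : Fin Y.m, (((b : ℕ) - 2 ^ β * Y.e b) * L b +
        ((Y.m : ℤ) - 2 ^ β * Y.a b) * Q b false) - k = 0 := by
    have e1 : ∑ b : Fin Y.m, ((((b : ℕ) : ℤ) - 2 ^ β * Y.e b) * L b +
        ((Y.m : ℤ) - 2 ^ β * Y.a b) * Q b false) =
        ((∑ b, (Y.m * Q b false + b * L b) : ℕ) : ℤ) -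
          ((2 ^ β * ∑ b, (Y.a b * Q b false + Y.e b * L b) : ℕ) : ℤ) := by
      push_cast
      rw [mul_sum, ← sum_sub_distrib]
      exact Finset.sum_congr rfl fun b _ => by ring
    rw [e1]
    constructor
    · intro h
      have := congrArg (Nat.cast : ℕ → ℤ) h
      rw [this]
      push_cast
      ring
    · intro h
      have : ((∑ b, (Y.m * Q b false + b * L b) : ℕ) : ℤ) =
          ((k + 2 ^ β * ∑ b, (Y.a b * Q b false + Y.e b * L b) : ℕ) : ℤ) := by
        rw [Nat.cast_add]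
        linarith
      exact_mod_cast this
  have i1 : (∀ b, (Q b false : ℤ) + Q b true - (2 ^ c - 1) * L b = 0) →
      ((∑ b, L b = ∑ t ∈ range M, (2 ^ β) ^ t) ↔
        (2 ^ β - 1) * ∑ b, ((L b : ℤ) + Q b false + Q b true) - 2 ^ c * ((2 ^ β) ^ M - 1) = 0) := by
    intro h2
    have e1 : ∑ b, ((L b : ℤ) + Q b false + Q b true) = 2 ^ c * ((∑ b, L b : ℕ) : ℤ) := by
      push_cast
      rw [mul_sum]
      refine Finset.sum_congr rfl fun b _ => ?_
      have := h2 b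
      linear_combination this
    have e2 : ((2 : ℤ) ^ β) ^ M - 1 = (2 ^ β - 1) * ((∑ t ∈ range M, (2 ^ β) ^ t : ℕ) : ℤ) := by
      push_cast
      rw [mul_comm, geom_sum_mul]
    rw [e1, e2]
    constructor
    · intro h
      rw [h]; ring
    · intro h
      have h5 : (2 ^ β - 1) * 2 ^ c * (((∑ b, L b : ℕ) : ℤ) -
          ((∑ t ∈ range M, (2 ^ β) ^ t : ℕ) : ℤ)) = 0 := by linear_combination h
      have h6 : ((2 : ℤ) ^ β - 1) * 2 ^ c ≠ 0 := by
        refine mul_ne_zero (by linarith) (by linarith)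
      have h7 := (mul_eq_zero.1 h5).resolve_left h6
      have h8 : ((∑ b, L b : ℕ) : ℤ) = ((∑ t ∈ range M, (2 ^ β) ^ t : ℕ) : ℤ) := by linarith
      exact_mod_cast h8
  constructor
  · intro h
    rw [← sub_eq_zero, hw] at h
    -- the bound for the sum of the unknowns
    set s : ℤ := ∑ b, ((L b : ℤ) + Q b false + Q b true) with hs
    set T := TT β M with hTdef
    have hT : 0 < T := T_pos (M := M) hB hB4
    have h3T := B3_le_T (M := M) hB hB4
    rw [← hTdef] at h3T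
    have hs0 : ∀ b, 0 ≤ (L b : ℤ) + Q b false + Q b true := fun b => by positivity
    have hs1 : T ^ (Y.m + 1) * s ≤ JJ Y β c M k := by
      rw [← hw, sub_eq_zero] at h
      rw [← h, hs, mul_sum, ← sum_add_distrib]
      refine Finset.sum_le_sum fun b _ => ?_
      rw [Fintype.sum_bool]
      have g1 := mul_le_mul_of_nonneg_right (wL_ge (M := M) hB hB4 b)
        (show (0 : ℤ) ≤ L b by positivity)
      have g2 := mul_le_mul_of_nonneg_right (wQ_ge (M := M) hB hB4 b false)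
        (show (0 : ℤ) ≤ Q b false by positivity)
      have g3 := mul_le_mul_of_nonneg_right (wQ_ge (M := M) hB hB4 b true)
        (show (0 : ℤ) ≤ Q b true by positivity)
      rw [← hTdef] at g1 g2 g3
      linarith
    have hkZ : (k : ℤ) < 2 ^ β := by exact_mod_cast hk
    have h1B := B1_le (M := M) hB hB4
    have hs2 : s ≤ 2 ^ c * ((2 ^ β) ^ M - 1) + 1 := by
      have g1 : JJ Y β c M k ≤ T ^ (Y.m + 1) * (2 ^ c * ((2 ^ β) ^ M - 1) + 1) := by
        unfold JJ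
        rw [← hTdef]
        have : (k : ℤ) * T ^ Y.m ≤ T * T ^ Y.m :=
          mul_le_mul_of_nonneg_right (by linarith) (by positivity)
        have e4 : T ^ (Y.m + 1) = T * T ^ Y.m := by ring
        linarith
      exact le_of_mul_le_mul_left (hs1.trans g1) (by positivity)
    have hs3 : s ≤ (2 ^ β) ^ (M + 1) := by
      have g1 : (2 : ℤ) ^ c * (2 ^ β) ^ M ≤ 2 ^ β * (2 ^ β) ^ M :=
        mul_le_mul_of_nonneg_right hc (by positivity)
      have g2 : ((2 : ℤ) ^ β) ^ (M + 1) = 2 ^ β * (2 ^ β) ^ M := by ring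
      linarith
    have hs4 : (2 ^ β) ^ 2 * s ≤ (2 ^ β) ^ (M + 3) := by
      have g1 : (2 ^ β) ^ 2 * s ≤ (2 ^ β) ^ 2 * (2 ^ β) ^ (M + 1) :=
        mul_le_mul_of_nonneg_left hs3 (by positivity)
      have g2 : ((2 : ℤ) ^ β) ^ (M + 3) = (2 ^ β) ^ 2 * (2 ^ β) ^ (M + 1) := by ring
      linarith
    have hle : ∀ b, (L b : ℤ) + Q b false + Q b true ≤ s := fun b =>
      Finset.single_le_sum (f := fun b => (L b : ℤ) + Q b false + Q b true)
        (fun b _ => hs0 b) (Finset.mem_univ b)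
    have hB2 : (2 : ℤ) ^ β ≤ (2 ^ β) ^ 2 := by nlinarith
    -- the digits
    let d : ℕ → ℤ := fun r => if hr : r < Y.m then
        (Q ⟨r, hr⟩ false : ℤ) + Q ⟨r, hr⟩ true - (2 ^ c - 1) * L ⟨r, hr⟩ else
      if r = Y.m then ∑ b : Fin Y.m, (((b : ℕ) - 2 ^ β * Y.e b) * L b +
        ((Y.m : ℤ) - 2 ^ β * Y.a b) * Q b false) - k else
      (2 ^ β - 1) * s - 2 ^ c * ((2 ^ β) ^ M - 1)
    have d2 : ∀ b : Fin Y.m, d b = (Q b false : ℤ) + Q b true - (2 ^ c - 1) * L b := by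
      intro b
      simp only [d, b.2, dif_pos, Fin.eta]
    have d3 : d Y.m = ∑ b : Fin Y.m, (((b : ℕ) - 2 ^ β * Y.e b) * L b +
        ((Y.m : ℤ) - 2 ^ β * Y.a b) * Q b false) - k := by
      simp only [d, lt_irrefl, dif_neg, not_false_eq_true, if_true]
    have d1 : d (Y.m + 1) = (2 ^ β - 1) * s - 2 ^ c * ((2 ^ β) ^ M - 1) := by
      have g1 : ¬ Y.m + 1 < Y.m := by omega
      have g2 : ¬ Y.m + 1 = Y.m := by omega
      simp only [d, g1, g2, dif_neg, not_false_eq_true, if_false]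
    have hsum : ∑ r ∈ range (Y.m + 1 + 1), d r * T ^ r = 0 := by
      rw [sum_range_succ, sum_range_succ, Finset.sum_range, d1, d3]
      rw [← h]
      congr 2
      exact Finset.sum_congr rfl fun b _ => by rw [d2 b]
    have hd : ∀ r < Y.m + 1, 2 * |d r| < T := by
      intro r hr
      rcases Nat.lt_succ_iff_lt_or_eq.1 hr with hr | rfl
      · have h5 := d2 ⟨r, hr⟩
        simp only at h5
        rw [h5]
        have g1 : (0 : ℤ) ≤ L ⟨r, hr⟩ := by positivity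
        have g2 : (0 : ℤ) ≤ Q ⟨r, hr⟩ false := by positivity
        have g3 : (0 : ℤ) ≤ Q ⟨r, hr⟩ true := by positivity
        have g4 := hle ⟨r, hr⟩
        have g5 : (2 ^ c - 1) * (L ⟨r, hr⟩ : ℤ) ≤ 2 ^ β * L ⟨r, hr⟩ :=
          mul_le_mul_of_nonneg_right (by linarith) g1
        have g6 : 0 ≤ (2 ^ c - 1) * (L ⟨r, hr⟩ : ℤ) := mul_nonneg (by linarith) g1
        have g7 : 2 ^ β * s ≤ (2 ^ β) ^ 2 * s :=
          mul_le_mul_of_nonneg_right hB2 (le_trans (hs0 ⟨r, hr⟩) g4)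
        have g8 : (1 : ℤ) * (Q ⟨r, hr⟩ false + Q ⟨r, hr⟩ true) ≤
          2 ^ β * (Q ⟨r, hr⟩ false + Q ⟨r, hr⟩ true) :=
          mul_le_mul_of_nonneg_right (by linarith) (by linarith)
        have g9 : 2 ^ β * ((L ⟨r, hr⟩ : ℤ) + Q ⟨r, hr⟩ false + Q ⟨r, hr⟩ true) ≤ 2 ^ β * s :=
          mul_le_mul_of_nonneg_left g4 (by linarith)
        have g10 : |(Q ⟨r, hr⟩ false : ℤ) + Q ⟨r, hr⟩ true - (2 ^ c - 1) * L ⟨r, hr⟩| ≤
            (2 ^ β) ^ (M + 3) := by
          rw [abs_le]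
          constructor <;> linarith
        have g11 : (0 : ℤ) < (2 ^ β) ^ (M + 3) := by positivity
        linarith
      · rw [d3]
        have g0 : |∑ b : Fin Y.m, ((((b : ℕ) : ℤ) - 2 ^ β * Y.e b) * L b +
            ((Y.m : ℤ) - 2 ^ β * Y.a b) * Q b false)| ≤ (2 ^ β) ^ 2 * s := by
          refine (Finset.abs_sum_le_sum_abs _ _).trans ?_
          rw [hs, mul_sum]
          refine Finset.sum_le_sum fun b _ => ?_
          obtain ⟨ha, he⟩ := ae_lt hB hB4 b
          have hm := m_le hB hB4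
          have hbm : ((b : ℕ) : ℤ) ≤ 2 ^ β := le_trans (by exact_mod_cast b.2.le) hm
          have c1 := abs_coef hB hB4 ((b : ℕ) : ℤ) (Y.e b) (by positivity) hbm (by positivity) he
          have c2 := abs_coef hB hB4 (Y.m : ℤ) (Y.a b) (by positivity) hm (by positivity) ha
          have g1 : (0 : ℤ) ≤ L b := by positivity
          have g2 : (0 : ℤ) ≤ Q b false := by positivity
          have g3 : (0 : ℤ) ≤ Q b true := by positivity
          refine (abs_add_le _ _).trans ?_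
          rw [abs_mul, abs_mul, abs_of_nonneg g1, abs_of_nonneg g2]
          have g4 := mul_le_mul_of_nonneg_right c1 g1
          have g5 := mul_le_mul_of_nonneg_right c2 g2
          have g6 : (0 : ℤ) ≤ (2 ^ β) ^ 2 * Q b true := by positivity
          linarith
        have g1 := abs_add_le (∑ b : Fin Y.m, ((((b : ℕ) : ℤ) - 2 ^ β * Y.e b) * L b +
            ((Y.m : ℤ) - 2 ^ β * Y.a b) * Q b false)) (-(k : ℤ))
        rw [abs_neg, abs_of_nonneg (show (0 : ℤ) ≤ k by positivity), ← sub_eq_add_neg] at g1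
        linarith
    have hz := digits_zero T (Y.m + 1) d hsum hd
    have z2 : ∀ b, (Q b false : ℤ) + Q b true - (2 ^ c - 1) * L b = 0 := by
      intro b
      rw [← d2 b]
      exact hz b (by omega)
    have z3 := hz Y.m (by omega)
    have z1 := hz (Y.m + 1) le_rfl
    rw [d3] at z3
    rw [d1] at z1
    exact ⟨(i1 z2).2 z1, fun b => (i2 b).2 (z2 b), i3.2 z3⟩
  · rintro ⟨h1, h2, h3⟩
    have z2 := fun b => (i2 b).1 (h2 b)
    rw [← sub_eq_zero, hw, i3.1 h3, (i1 z2).1 h1]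
    rw [Finset.sum_eq_zero fun b _ => by rw [z2 b, zero_mul]]
    ring

end

end Pool.Agent.KS6_35.OV
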