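import Pool.Agent.KS6_35.OV.Digit

/-! The arithmetical condition for an orbit which ends with `0`. -/

set_option autoImplicit false

namespace Pool.Agent.KS6_35.OV

open Finset

variable (Y : Tab)

/-- a constant -/
def c1 : ℕ := Y.m + ∑ b, (Y.a b + Y.e b)

/-- the length of a digit of the history -/
def beta (M k : ℕ) : ℕ := 2 ^ (M + k + (2 * c1 Y + 2))

/-- the length of the mask -/
def cc (M k : ℕ) : ℕ := beta Y M k - c1 Y

theorem m_lt : Y.m ≤ 2 ^ c1 Y := by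
  have : c1 Y < 2 ^ c1 Y := Nat.lt_two_pow_self
  unfold c1 at *
  omega

theorem ae_lt' (b : Fin Y.m) : Y.a b + Y.e b < 2 ^ c1 Y := by
  have h1 : c1 Y < 2 ^ c1 Y := Nat.lt_two_pow_self
  have h2 : Y.a b + Y.e b ≤ ∑ b, (Y.a b + Y.e b) :=
    Finset.single_le_sum (f := fun b => Y.a b + Y.e b) (fun _ _ => Nat.zero_le _)
      (Finset.mem_univ b)
  unfold c1 at h1 ⊢
  omega

theorem beta_ge (M k : ℕ) : (M + k + 1) * (2 * c1 Y + 3) ≤ beta Y M k := by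
  unfold beta
  rw [pow_add]
  have h1 : M + k < 2 ^ (M + k) := Nat.lt_two_pow_self
  have h2 : 2 * c1 Y + 2 < 2 ^ (2 * c1 Y + 2) := Nat.lt_two_pow_self
  exact Nat.mul_le_mul (by omega) (by omega)

theorem growth_bound (M k : ℕ) : c1 Y * M + k + c1 Y ≤ beta Y M k ∧ 3 ≤ beta Y M k ∧
    k ≤ beta Y M k := by
  have h := beta_ge Y M k
  have h1 : (M + k + 1) * (2 * c1 Y + 3) =
      2 * (c1 Y * M) + 2 * (k * c1 Y) + 2 * c1 Y + 3 * M + 3 * k + 3 := by ring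
  have h2 := Nat.zero_le (k * c1 Y)
  have h3 := Nat.zero_le (c1 Y * M)
  refine ⟨?_, ?_, ?_⟩ <;> omega

theorem big (M k : ℕ) : Big Y (beta Y M k) (cc Y M k) := by
  obtain ⟨h1, h2, _⟩ := growth_bound Y M k
  have h3 := Nat.zero_le (c1 Y * M)
  have h4 : beta Y M k = c1 Y + cc Y M k := by unfold cc; omega
  refine ⟨by omega, ?_, fun b => ?_⟩
  · rw [h4, pow_add]
    exact Nat.mul_le_mul_right _ (m_lt Y)
  · rw [h4, pow_add]
    exact Nat.mul_lt_mul_of_pos_right (ae_lt' Y b) (by positivity)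

theorem four_le (M k : ℕ) : 4 ≤ 2 ^ beta Y M k := by
  obtain ⟨_, h2, _⟩ := growth_bound Y M k
  calc 4 = 2 ^ 2 := by norm_num
    _ ≤ _ := Nat.pow_le_pow_right (by norm_num) (by omega)

theorem k_lt (M k : ℕ) : k < 2 ^ beta Y M k := by
  obtain ⟨_, _, h3⟩ := growth_bound Y M k
  exact lt_of_le_of_lt h3 Nat.lt_two_pow_self

theorem g_growth (x : ℕ) : Y.g x + 1 ≤ 2 ^ c1 Y * (x + 1) := by
  have h1 := ae_lt' Y (Y.res x)
  have h2 : x / Y.m ≤ x := Nat.div_le_self _ _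
  have h3 : Y.a (Y.res x) * (x / Y.m) ≤ Y.a (Y.res x) * x := Nat.mul_le_mul_left _ h2
  have h4 : (Y.a (Y.res x) + Y.e (Y.res x) + 1) * (x + 1) ≤ 2 ^ c1 Y * (x + 1) :=
    Nat.mul_le_mul_right _ h1
  have h5 : (Y.a (Y.res x) + Y.e (Y.res x) + 1) * (x + 1) =
    Y.a (Y.res x) * x + Y.e (Y.res x) * x + x + Y.a (Y.res x) + Y.e (Y.res x) + 1 := by ring
  have h6 := Nat.zero_le (Y.e (Y.res x) * x)
  unfold Tab.g
  omega

theorem orbit_growth (k t : ℕ) : Y.g^[t] k + 1 ≤ 2 ^ (c1 Y * t + k) := by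
  induction t with
  | zero =>
    have : k < 2 ^ k := Nat.lt_two_pow_self
    simpa using this
  | succ t ih =>
    rw [Function.iterate_succ_apply']
    calc _ ≤ 2 ^ c1 Y * (Y.g^[t] k + 1) := g_growth Y _
      _ ≤ 2 ^ c1 Y * 2 ^ (c1 Y * t + k) := Nat.mul_le_mul_left _ ih
      _ = 2 ^ (c1 Y * (t + 1) + k) := by rw [← pow_add]; congr 1; ring

theorem orbit_lt (M k t : ℕ) (ht : t < M) : Y.g^[t] k < 2 ^ cc Y M k := by
  obtain ⟨h1, _, _⟩ := growth_bound Y M k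
  have h2 := orbit_growth Y k t
  have h3 : c1 Y * t ≤ c1 Y * M := Nat.mul_le_mul_left _ ht.le
  have h4 : 2 ^ (c1 Y * t + k) ≤ 2 ^ cc Y M k :=
    Nat.pow_le_pow_right (by norm_num) (by unfold cc; omega)
  omega

/-- the system has a solution if and only if the orbit ends with `0` -/
theorem sol_iff (M k : ℕ) : (∃ L Q, Sol Y (beta Y M k) (cc Y M k) M k L Q) ↔ Y.g^[M] k = 0 := by
  constructor
  · rintro ⟨L, Q, h⟩
    exact Sol.sound (big Y M k) M k L Q (k_lt Y M k) h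
  · intro h
    exact exists_sol (big Y M k) M k (fun t ht => orbit_lt Y M k t ht) h

/-- the weights as natural numbers -/
def nL (M k : ℕ) (b : Fin Y.m) : ℕ := (wL Y (beta Y M k) (cc Y M k) M b).toNat

/-- the weights as natural numbers -/
def nQ (M k : ℕ) (b : Fin Y.m) (i : Bool) : ℕ := (wQ Y (beta Y M k) M b i).toNat

/-- the position as a natural number -/
def nJ (M k : ℕ) : ℕ := (JJ Y (beta Y M k) (cc Y M k) M k).toNat

theorem TT_pow_pos (β M r : ℕ) : 1 ≤ TT β M ^ r := by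
  unfold TT
  exact one_le_pow₀ (one_le_pow₀ (one_le_pow₀ (by norm_num)))

theorem nL_cast (M k : ℕ) (b : Fin Y.m) :
    (nL Y M k b : ℤ) = wL Y (beta Y M k) (cc Y M k) M b := by
  have h1 := wL_ge (M := M) (big Y M k) (four_le Y M k) b
  have h2 := TT_pow_pos (beta Y M k) M (Y.m + 1)
  exact Int.toNat_of_nonneg (by linarith)

theorem nQ_cast (M k : ℕ) (b : Fin Y.m) (i : Bool) :
    (nQ Y M k b i : ℤ) = wQ Y (beta Y M k) M b i := by
  have h1 := wQ_ge (M := M) (big Y M k) (four_le Y M k) b i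
  have h2 := TT_pow_pos (beta Y M k) M (Y.m + 1)
  exact Int.toNat_of_nonneg (by linarith)

theorem nJ_cast (M k : ℕ) : (nJ Y M k : ℤ) = JJ Y (beta Y M k) (cc Y M k) M k := by
  refine Int.toNat_of_nonneg ?_
  have h1 := TT_pow_pos (beta Y M k) M (Y.m + 1)
  have h2 := TT_pow_pos (beta Y M k) M Y.m
  have h3 : (1 : ℤ) ≤ (2 ^ beta Y M k) ^ M := one_le_pow₀ (one_le_pow₀ (by norm_num))
  unfold JJ
  have h4 : (0 : ℤ) ≤ (2 ^ beta Y M k) ^ M - 1 := by linarith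
  positivity

theorem nL_pos (M k : ℕ) (b : Fin Y.m) : 1 ≤ nL Y M k b := by
  have h1 := wL_ge (M := M) (big Y M k) (four_le Y M k) b
  have h2 := TT_pow_pos (beta Y M k) M (Y.m + 1)
  rw [← nL_cast] at h1
  have : (1 : ℤ) ≤ nL Y M k b := by linarith
  exact_mod_cast this

theorem nQ_pos (M k : ℕ) (b : Fin Y.m) (i : Bool) : 1 ≤ nQ Y M k b i := by
  have h1 := wQ_ge (M := M) (big Y M k) (four_le Y M k) b i
  have h2 := TT_pow_pos (beta Y M k) M (Y.m + 1)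
  rw [← nQ_cast] at h1
  have : (1 : ℤ) ≤ nQ Y M k b i := by linarith
  exact_mod_cast this

theorem wt_iff (M k : ℕ) (L : Fin Y.m → ℕ) (Q : Fin Y.m → Bool → ℕ) (hL : Dis L)
    (hQ : ∀ b, Dis (Q b)) :
    wt (nL Y M k) (nQ Y M k) L Q = nJ Y M k ↔ Sol Y (beta Y M k) (cc Y M k) M k L Q := by
  have h := agg (M := M) (big Y M k) (four_le Y M k) (k_lt Y M k) L Q
  constructor
  · intro h1
    have h2 := congrArg (Nat.cast : ℕ → ℤ) h1
    unfold wt at h2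
    push_cast at h2
    simp only [nL_cast, nQ_cast, nJ_cast] at h2
    obtain ⟨h3, h4, h5⟩ := h.1 h2
    exact ⟨hL, hQ, h3, h4, h5⟩
  · intro h1
    have h2 := h.2 ⟨h1.s1, h1.s2, h1.s3⟩
    have h3 : ((wt (nL Y M k) (nQ Y M k) L Q : ℕ) : ℤ) = nJ Y M k := by
      unfold wt
      push_cast
      simp only [nL_cast, nQ_cast, nJ_cast]
      exact h2
    exact_mod_cast h3

/-- the exponent -/
def nN (M k : ℕ) : ℕ := 2 ^ (nJ Y M k + (3 * Y.m + 1))

theorem nN_lt (M k : ℕ) : (3 * Y.m + 1) ^ nJ Y M k < 2 ^ nN Y M k := by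
  have h1 : 3 * Y.m + 1 < 2 ^ (3 * Y.m + 1) := Nat.lt_two_pow_self
  have h2 : nJ Y M k < 2 ^ nJ Y M k := Nat.lt_two_pow_self
  have h3 : (3 * Y.m + 1) * nJ Y M k < nN Y M k := by
    unfold nN
    rw [pow_add, mul_comm]
    exact Nat.mul_lt_mul'' h2 h1
  calc (3 * Y.m + 1) ^ nJ Y M k ≤ (2 ^ (3 * Y.m + 1)) ^ nJ Y M k :=
        Nat.pow_le_pow_left h1.le _
    _ = 2 ^ ((3 * Y.m + 1) * nJ Y M k) := by rw [← pow_mul]
    _ < 2 ^ nN Y M k := Nat.pow_lt_pow_right (by norm_num) h3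

/-- the number in the divisibility test -/
def bigD (M v k : ℕ) : ℤ :=
  den (nL Y M k) (nQ Y M k) ((2 : ℤ) ^ nN Y M k) * ((v : ℤ) + 2 ^ (nN Y M k * nJ Y M k)) - 1

/-- the main arithmetical statement -/
theorem arith (M k : ℕ) : (∃ v : ℕ, v < 2 ^ (nN Y M k * nJ Y M k) ∧
    (2 : ℤ) ^ (nN Y M k * nJ Y M k + 1) ∣ bigD Y M v k) ↔ Y.g^[M] k = 0 := by
  unfold bigD
  rw [digit_test (nL Y M k) (nQ Y M k) (nL_pos Y M k) (nQ_pos Y M k) _ _ (nN_lt Y M k),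
    ← sol_iff Y M k]
  · constructor
    · rintro ⟨L, Q, h1, h2, h3⟩
      exact ⟨L, Q, (wt_iff Y M k L Q h1 h2).1 h3⟩
    · rintro ⟨L, Q, h⟩
      exact ⟨L, Q, h.dL, h.dQ, (wt_iff Y M k L Q h.dL h.dQ).2 h⟩
  · intro L Q L' Q' h1 h2 h3 h1' h2' h3'
    exact Sol.unique (big Y M k) M k L L' Q Q' (k_lt Y M k) ((wt_iff Y M k L Q h1 h2).1 h3)
      ((wt_iff Y M k L' Q' h1' h2').1 h3')

end Pool.Agent.KS6_35.OV
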