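import Pool.Agent.KS6_35.OV.Sol
import Pool.Graph.R_seed8.Helper707.Num

/-! Recursively enumerable sets and orbits of generalised Collatz maps which reach `0`. -/

set_option autoImplicit false

namespace Pool.Agent.KS6_35.OV

open Function Finset Pool.Agent.Helper707.Prog Pool.Agent.Helper707.Flat
  Pool.Agent.Helper707.Num

/-- the zeros of a primitive recursive search are reduced to orbits which reach `0` -/
theorem exists_tab {f : List.Vector ℕ 2 → ℕ} (hf : Nat.Primrec' f) :
    ∃ (Y : Tab) (S : ℕ),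
      ∀ x, (∃ M, Y.g^[M] (S * 2 ^ x) = 0) ↔ ∃ k, f (k ::ᵥ x ::ᵥ List.Vector.nil) = 0 := by
  classical
  obtain ⟨body, hb⟩ := search hf
  set P := code (prog body) 0 with hPdef
  set L := len (prog body) with hL
  obtain ⟨K0, hK0⟩ := code_ok (prog body)
  set K := K0 + 1 with hK
  have hP : ∀ i ∈ P, Ok K L i := fun i hi => (hK0 0 i hi).mono (by omega) (by omega)
  set Q := ∏ i ∈ range K, pr i with hQ
  have hQpos : 0 < Q := Finset.prod_pos fun i _ => (pr_prime i).pos
  choose a e hae using nx_affine (K := K) (L := L) hP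
  let Y : Tab := ⟨(L + 1) * Q, Nat.mul_pos (by omega) hQpos,
    fun ρ => if (ρ : ℕ) % (L + 1) = L then 0 else a ρ,
    fun ρ => if (ρ : ℕ) % (L + 1) = L then 0 else e ρ⟩
  have hmod : ∀ N, (N % Y.m) % (L + 1) = N % (L + 1) := by
    intro N
    exact Nat.mod_mod_of_dvd _ (dvd_mul_right _ _)
  have hnext : ∀ N, Y.g N = if N % (L + 1) = L then 0 else nx P (L + 1) N := by
    intro N
    have h1 := hae (N % Y.m) (N / Y.m)
    have h2 : (L + 1) * (∏ i ∈ range K, pr i) * (N / Y.m) + N % Y.m = N := Nat.div_add_mod N Y.m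
    rw [h2] at h1
    rw [h1]
    change (if (N % Y.m) % (L + 1) = L then 0 else a (N % Y.m)) * (N / Y.m) +
      (if (N % Y.m) % (L + 1) = L then 0 else e (N % Y.m)) = _
    rw [hmod]
    split_ifs
    · rw [zero_mul]
    · rfl
  refine ⟨Y, L + 1, fun x => ?_⟩
  rw [halting_iff hb]
  have hstart : (L + 1) * 2 ^ x = cf K (L + 1) (0, sx x 0 0) := by
    unfold cf enc
    rw [hK, Finset.prod_range_succ']
    have h1 : ∏ i ∈ range K0, pr (i + 1) ^ sx x 0 0 (i + 1) = 1 := by
      refine Finset.prod_eq_one fun i _ => ?_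
      have : sx x 0 0 (i + 1) = 0 := by
        unfold sx
        rw [if_neg (by omega)]
        split_ifs <;> rfl
      rw [this, pow_zero]
    have h2 : pr 0 = 2 := Nat.nth_prime_zero_eq_two
    simp only [h1, h2, one_mul]
    rfl
  rw [hstart]
  have hcf : ∀ T, (nx P (L + 1))^[T] (cf K (L + 1) (0, sx x 0 0))
      = cf K (L + 1) ((step P)^[T] (0, sx x 0 0)) ∧ ((step P)^[T] (0, sx x 0 0)).1 ≤ L :=
    fun T => nx_cf_iter hP _ (Nat.zero_le _) T
  have hcfm : ∀ T, cf K (L + 1) ((step P)^[T] (0, sx x 0 0)) % (L + 1)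
      = ((step P)^[T] (0, sx x 0 0)).1 := by
    intro T
    unfold cf
    rw [Nat.mul_add_mod, Nat.mod_eq_of_lt (by have := (hcf T).2; omega)]
  have hiter : ∀ T, (∀ T' < T, ((step P)^[T'] (0, sx x 0 0)).1 ≠ L) →
      Y.g^[T] (cf K (L + 1) (0, sx x 0 0)) = cf K (L + 1) ((step P)^[T] (0, sx x 0 0)) := by
    intro T
    induction T with
    | zero => intro _; rfl
    | succ T ih =>
      intro h
      have e := (hcf (T + 1)).1
      rw [iterate_succ_apply', (hcf T).1] at e
      rw [iterate_succ_apply', ih fun T' hT' => h T' (by omega), hnext, hcfm,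
        if_neg (h T (by omega))]
      exact e
  constructor
  · rintro ⟨M, hM⟩
    by_contra hc
    push Not at hc
    rw [hiter M fun T' _ => hc T'] at hM
    unfold cf at hM
    have h1 := enc_pos K ((step P)^[M] (0, sx x 0 0)).2
    have h2 : 0 < (L + 1) * enc K ((step P)^[M] (0, sx x 0 0)).2 := Nat.mul_pos (by omega) h1
    omega
  · intro h
    refine ⟨Nat.find h + 1, ?_⟩
    rw [iterate_succ_apply', hiter (Nat.find h) fun T' hT' => Nat.find_min h hT', hnext, hcfm,
      if_pos (Nat.find_spec h)]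

open Nat.Partrec in
/-- every recursively enumerable set is the set of zeros of a primitive recursive search -/
theorem exists_search {S : ℕ → Prop} (hS : REPred S) : ∃ f : List.Vector ℕ 2 → ℕ,
    Nat.Primrec' f ∧ ∀ x, S x ↔ ∃ k, f (k ::ᵥ x ::ᵥ List.Vector.nil) = 0 := by
  have h0 : Partrec fun x : ℕ => (Part.assert (S x) fun _ => Part.some ()).map
      fun _ => (0 : ℕ) := hS.map (Computable.const 0).to₂
  have h00 : Nat.Partrec fun x : ℕ => (Part.assert (S x) fun _ => Part.some ()).map
      fun _ => (0 : ℕ) := Partrec.nat_iff.1 h0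
  obtain ⟨c, hc⟩ := Code.exists_code.1 h00
  let f : List.Vector ℕ 2 → ℕ := fun v =>
    if (Code.evaln v.head c v.tail.head).isSome then 0 else 1
  have hf : Primrec f := by
    have h1 : Primrec fun v : List.Vector ℕ 2 => Code.evaln v.head c v.tail.head := by
      have h2 : Primrec fun v : List.Vector ℕ 2 =>
          (((v.head, c), v.tail.head) : (ℕ × Code) × ℕ) :=
        Primrec.pair (Primrec.pair Primrec.vector_head (Primrec.const c))
          (Primrec.vector_head.comp Primrec.vector_tail)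
      exact Code.primrec_evaln.comp h2
    have h3 : Primrec fun v : List.Vector ℕ 2 =>
        (Code.evaln v.head c v.tail.head).isSome := Primrec.option_isSome.comp h1
    exact Primrec.ite (Primrec.eq.comp h3 (Primrec.const true)) (Primrec.const 0) (Primrec.const 1)
  refine ⟨f, Nat.Primrec'.of_prim hf, fun x => ?_⟩
  have h2 : ∀ k, f (k ::ᵥ x ::ᵥ List.Vector.nil) = 0 ↔ (Code.evaln k c x).isSome = true := by
    intro k
    simp only [f, List.Vector.head_cons, List.Vector.tail_cons]
    split_ifs with h <;> simp [h]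
  simp only [h2]
  have h3 : S x ↔ (Code.eval c x).Dom := by
    rw [hc]
    simp [Part.assert]
  rw [h3, Part.dom_iff_mem]
  constructor
  · rintro ⟨y, hy⟩
    obtain ⟨k, hk⟩ := Code.evaln_complete.1 hy
    exact ⟨k, Option.isSome_iff_exists.2 ⟨y, hk⟩⟩
  · rintro ⟨k, hk⟩
    obtain ⟨y, hy⟩ := Option.isSome_iff_exists.1 hk
    exact ⟨y, Code.evaln_complete.2 ⟨k, hy⟩⟩

/-- every recursively enumerable set is given by orbits which reach `0` -/
theorem exists_tab_re {S : ℕ → Prop} (hS : REPred S) : ∃ (Y : Tab) (S0 : ℕ),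
    ∀ x, S x ↔ ∃ M, Y.g^[M] (S0 * 2 ^ x) = 0 := by
  obtain ⟨f, hf, h⟩ := exists_search hS
  obtain ⟨Y, S0, h'⟩ := exists_tab hf
  exact ⟨Y, S0, fun x => (h x).trans (h' x).symm⟩

end Pool.Agent.KS6_35.OV
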