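import Pool.Agent.KS6_35.OV.PS
import Pool.Agent.KS6_35.OR.Core

/-! The parity of a coefficient is read from the inverse of a number modulo a power of two. -/

set_option autoImplicit false

namespace Pool.Agent.KS6_35.OV

open Finset

variable {m : ℕ}

theorem trunc_dvd (D E : PowerSeries ℤ) (D' : Polynomial ℤ) (hD : (D' : PowerSeries ℤ) = D)
    (h : D * E = 1) (J : ℕ) (Z : ℤ) :
    Z ^ J ∣ D'.eval Z * ∑ p ∈ range J, PowerSeries.coeff p E * Z ^ p - 1 := by
  have h1 : (PowerSeries.X : PowerSeries ℤ) ^ J ∣ E - (PowerSeries.trunc J E : PowerSeries ℤ) := by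
    rw [PowerSeries.X_pow_dvd_iff]
    intro i hi
    rw [map_sub, Polynomial.coeff_coe, PowerSeries.coeff_trunc, if_pos hi, sub_self]
  have h2 : (PowerSeries.X : PowerSeries ℤ) ^ J ∣
      ((D' * PowerSeries.trunc J E - 1 : Polynomial ℤ) : PowerSeries ℤ) := by
    have h3 := h1.mul_left (-D)
    have h4 : -D * (E - (PowerSeries.trunc J E : PowerSeries ℤ)) =
        ((D' * PowerSeries.trunc J E - 1 : Polynomial ℤ) : PowerSeries ℤ) := by
      rw [Polynomial.coe_sub, Polynomial.coe_mul, Polynomial.coe_one, hD]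
      linear_combination -h
    rwa [h4] at h3
  have h5 : (Polynomial.X : Polynomial ℤ) ^ J ∣ D' * PowerSeries.trunc J E - 1 := by
    rw [Polynomial.X_pow_dvd_iff]
    intro d hd
    have := PowerSeries.X_pow_dvd_iff.1 h2 d hd
    rwa [Polynomial.coeff_coe] at this
  obtain ⟨R, hR⟩ := h5
  have h6 := congrArg (Polynomial.eval Z) hR
  rw [Polynomial.eval_sub, Polynomial.eval_mul, Polynomial.eval_mul, Polynomial.eval_pow,
    Polynomial.eval_X, Polynomial.eval_one] at h6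
  have h7 : (PowerSeries.trunc J E).eval Z = ∑ p ∈ range J, PowerSeries.coeff p E * Z ^ p := by
    have := PowerSeries.eval₂_trunc_eq_sum_range Z (RingHom.id ℤ) J E
    simpa [Polynomial.eval₂_id] using this
  rw [h7] at h6
  rw [h6]
  exact dvd_mul_right _ _

theorem digit_test (WL : Fin m → ℕ) (WQ : Fin m → Bool → ℕ) (hL : ∀ b, 1 ≤ WL b)
    (hQ : ∀ b i, 1 ≤ WQ b i) (N J : ℕ) (hN : (3 * m + 1) ^ J < 2 ^ N)
    (huniq : ∀ L Q L' Q', Dis L → (∀ b, Dis (Q b)) → wt WL WQ L Q = J →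
      Dis L' → (∀ b, Dis (Q' b)) → wt WL WQ L' Q' = J → L = L' ∧ Q = Q') :
    (∃ v : ℕ, v < 2 ^ (N * J) ∧
      (2 : ℤ) ^ (N * J + 1) ∣ den WL WQ ((2 : ℤ) ^ N) * ((v : ℤ) + 2 ^ (N * J)) - 1) ↔
    ∃ L Q, Dis L ∧ (∀ b, Dis (Q b)) ∧ wt WL WQ L Q = J := by
  obtain ⟨E, hE, hbd⟩ := exists_inv WL WQ hL hQ
  rw [← odd_iff WL WQ hL hQ E hE J huniq]
  set Z : ℤ := 2 ^ N with hZ
  have hZJ : (2 : ℤ) ^ (N * J) = Z ^ J := by rw [hZ, ← pow_mul]
  have hN1 : 1 ≤ N := by
    by_contra hc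
    have : N = 0 := by omega
    rw [this, pow_zero] at hN
    have := Nat.one_le_pow J (3 * m + 1) (by omega)
    omega
  have hZ2 : 2 ≤ Z := by
    calc (2 : ℤ) = 2 ^ 1 := by norm_num
      _ ≤ 2 ^ N := pow_le_pow_right₀ (by norm_num) hN1
  set c : ℕ → ℤ := fun p => PowerSeries.coeff p E with hc
  have hc0 : ∀ p, 0 ≤ c p := fun p => (hbd p).1
  have hc1 : ∀ p < J, c p ≤ Z - 1 := by
    intro p hp
    have h1 := (hbd p).2
    have h2 : ((3 * m + 1 : ℕ) : ℤ) ^ p ≤ ((3 * m + 1 : ℕ) : ℤ) ^ J :=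
      pow_le_pow_right₀ (by exact_mod_cast (show 1 ≤ 3 * m + 1 by omega)) hp.le
    have h3 : ((3 * m + 1 : ℕ) : ℤ) ^ J < Z := by rw [hZ]; exact_mod_cast hN
    change PowerSeries.coeff p E ≤ Z - 1
    linarith
  set A : ℤ := ∑ p ∈ range J, c p * Z ^ p with hA
  have hA0 : 0 ≤ A := Finset.sum_nonneg fun p _ => mul_nonneg (hc0 p) (by positivity)
  have hA1 : A < Z ^ J := Pool.Agent.KS6_35.OR.digit_bound Z hZ2 c J hc1
  let D' : Polynomial ℤ := den WL WQ Polynomial.X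
  have hD' : (D' : PowerSeries ℤ) = den WL WQ PowerSeries.X := by
    have := map_den (Polynomial.coeToPowerSeries.ringHom : Polynomial ℤ →+* PowerSeries ℤ) WL WQ
      Polynomial.X
    simpa using this
  have hDe : D'.eval Z = den WL WQ Z := by
    have := map_den (Polynomial.evalRingHom Z) WL WQ (Polynomial.X : Polynomial ℤ)
    simpa using this
  have hV := trunc_dvd _ E D' hD' hE (J + 1) Z
  rw [hDe, sum_range_succ] at hV
  change Z ^ (J + 1) ∣ den WL WQ Z * (A + c J * Z ^ J) - 1 at hV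
  have h2Z : (2 : ℤ) ^ (N * J + 1) = 2 * Z ^ J := by rw [pow_succ, hZJ]; ring
  have hdvd : (2 : ℤ) * Z ^ J ∣ Z ^ (J + 1) := by
    rw [pow_succ', hZ]
    exact mul_dvd_mul (dvd_pow_self _ (by omega)) dvd_rfl
  have hV2 := hdvd.trans hV
  rw [h2Z, hZJ]
  have hZJ0 : 0 < Z ^ J := by positivity
  have hstep : ∀ v : ℤ, 2 * Z ^ J ∣ den WL WQ Z * (v + Z ^ J) - 1 ↔
      2 * Z ^ J ∣ (v + Z ^ J) - (A + c J * Z ^ J) := by
    intro v
    constructor
    · intro h
      have h1 := dvd_sub (h.mul_left (A + c J * Z ^ J)) (hV2.mul_left (v + Z ^ J))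
      have h2 : (A + c J * Z ^ J) * (den WL WQ Z * (v + Z ^ J) - 1) -
          (v + Z ^ J) * (den WL WQ Z * (A + c J * Z ^ J) - 1) =
          (v + Z ^ J) - (A + c J * Z ^ J) := by ring
      rwa [h2] at h1
    · intro h
      have h1 := dvd_add (h.mul_left (den WL WQ Z)) hV2
      have h2 : den WL WQ Z * ((v + Z ^ J) - (A + c J * Z ^ J)) +
          (den WL WQ Z * (A + c J * Z ^ J) - 1) = den WL WQ Z * (v + Z ^ J) - 1 := by ring
      rwa [h2] at h1
  constructor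
  · rintro ⟨v, hv, h⟩
    rw [hstep] at h
    have hv' : (v : ℤ) < Z ^ J := by rw [← hZJ]; exact_mod_cast hv
    have h1 : Z ^ J ∣ (v : ℤ) - A := by
      have h2 : Z ^ J ∣ (v + Z ^ J) - (A + c J * Z ^ J) := (dvd_mul_left _ _).trans h
      have h3 := dvd_sub h2 (Dvd.intro (1 - c J) rfl : Z ^ J ∣ Z ^ J * (1 - c J))
      have h4 : (v + Z ^ J) - (A + c J * Z ^ J) - Z ^ J * (1 - c J) = (v : ℤ) - A := by ring
      rwa [h4] at h3
    have h5 : (v : ℤ) - A = 0 := by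
      refine Int.eq_zero_of_abs_lt_dvd h1 ?_
      have : (0 : ℤ) ≤ v := by positivity
      rw [abs_lt]
      constructor <;> linarith
    have h6 : 2 * Z ^ J ∣ (1 - c J) * Z ^ J := by
      have : (1 - c J) * Z ^ J = (v + Z ^ J) - (A + c J * Z ^ J) := by linarith
      rwa [this]
    have h7 : (2 : ℤ) ∣ 1 - c J := Int.dvd_of_mul_dvd_mul_right hZJ0.ne' h6
    change Odd (c J)
    obtain ⟨w, hw⟩ := h7
    exact ⟨-w, by linarith⟩
  · intro h
    change Odd (c J) at h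
    obtain ⟨w, hw⟩ := h
    refine ⟨A.toNat, ?_, ?_⟩
    · have : (A.toNat : ℤ) < (2 ^ (N * J) : ℕ) := by
        rw [Int.toNat_of_nonneg hA0]
        push_cast
        rw [hZJ]
        exact hA1
      exact_mod_cast this
    · rw [hstep, Int.toNat_of_nonneg hA0]
      refine ⟨-w, ?_⟩
      rw [hw]; ring

end Pool.Agent.KS6_35.OV
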