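import Mathlib

/-! Tuples of natural numbers with disjoint binary digits. -/

set_option autoImplicit false

namespace Pool.Agent.KS6_35.OV

open Finset

section

variable {ι : Type} [Fintype ι]

/-- at every binary place at most one of the numbers has a one -/
def Dis (x : ι → ℕ) : Prop := ∀ j, ∑ i, x i / 2 ^ j % 2 ≤ 1

theorem dis_zero : Dis (fun _ : ι => 0) := fun j => by simp

theorem Dis.div {x : ι → ℕ} (h : Dis x) (β : ℕ) : Dis (fun i => x i / 2 ^ β) := by
  intro j
  have := h (β + j)
  simpa [Nat.div_div_eq_div_mul, ← pow_add] using this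

theorem Dis.mod_lt {x : ι → ℕ} (h : Dis x) (β : ℕ) : ∑ i, x i % 2 ^ β < 2 ^ β := by
  induction β generalizing x with
  | zero => simp [Nat.mod_one]
  | succ β ih =>
    have h1 := ih (h.div 1)
    have h0 := h 0
    have h2 : ∀ i, x i % 2 ^ (β + 1) = x i / 2 ^ 0 % 2 + 2 * (x i / 2 ^ 1 % 2 ^ β) := by
      intro i
      rw [pow_succ', Nat.mod_mul]; simp
    rw [Finset.sum_congr rfl fun i _ => h2 i, sum_add_distrib, ← mul_sum, pow_succ' 2 β]
    omega

theorem Dis.add {x y : ι → ℕ} {β : ℕ} (hy : Dis y) (hyb : ∀ i, y i < 2 ^ β) (hx : Dis x) :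
    Dis (fun i => y i + 2 ^ β * x i) := by
  intro j
  by_cases hj : j < β
  · refine le_trans (Finset.sum_le_sum fun i _ => ?_) (hy j)
    obtain ⟨c, hc⟩ : ∃ c, β = j + 1 + c := ⟨β - (j + 1), by omega⟩
    have : y i + 2 ^ β * x i = y i + 2 ^ j * (2 * (2 ^ c * x i)) := by
      rw [hc]; ring
    beta_reduce
    rw [this, Nat.add_mul_div_left _ _ (by positivity), Nat.add_mul_mod_self_left]
  · push Not at hj
    obtain ⟨c, hc⟩ : ∃ c, j = β + c := ⟨j - β, by omega⟩
    refine le_trans (Finset.sum_le_sum fun i _ => ?_) (hx c)
    rw [hc, pow_add, ← Nat.div_div_eq_div_mul, Nat.add_mul_div_left _ _ (by positivity),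
      Nat.div_eq_of_lt (hyb i), zero_add]

theorem dis_single [DecidableEq ι] (i0 : ι) : Dis (fun i => if i = i0 then 1 else 0) := by
  intro j
  calc _ ≤ ∑ i, (if i = i0 then 1 else 0) := Finset.sum_le_sum fun i _ => by
        by_cases hi : i = i0
        · simp only [hi, if_true]; omega
        · simp [hi]
    _ = 1 := by simp

open Classical in
/-- the tuples of numbers below `2 ^ n` with disjoint digits -/
noncomputable def DD (ι : Type) [Fintype ι] (n : ℕ) : Finset (ι → ℕ) :=
  (Fintype.piFinset fun _ : ι => range (2 ^ n)).filter Dis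

theorem mem_DD {n : ℕ} {x : ι → ℕ} : x ∈ DD ι n ↔ (∀ i, x i < 2 ^ n) ∧ Dis x := by
  classical
  unfold DD
  rw [Finset.mem_filter, Fintype.mem_piFinset]
  simp only [Finset.mem_range]

theorem prod_eq_sum_DD {R : Type} [CommSemiring R] (n : ℕ) (u : ι → R) :
    ∏ j ∈ range n, (1 + ∑ i, u i ^ 2 ^ j) = ∑ x ∈ DD ι n, ∏ i, u i ^ x i := by
  classical
  induction n generalizing u with
  | zero =>
    have : DD ι 0 = {fun _ => 0} := by
      ext x
      rw [mem_DD, Finset.mem_singleton]
      constructor
      · rintro ⟨h, _⟩
        funext i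
        have := h i
        simpa using this
      · rintro rfl
        exact ⟨fun i => by simp, dis_zero⟩
    rw [this]
    simp
  | succ n ih =>
    rw [prod_range_succ']
    have h1 : ∀ j, ∑ i, u i ^ 2 ^ (j + 1) = ∑ i, (u i ^ 2) ^ 2 ^ j := by
      intro j
      refine Finset.sum_congr rfl fun i _ => ?_
      rw [← pow_mul, pow_succ']
    simp_rw [h1]
    rw [ih (fun i => u i ^ 2)]
    have h2 : (1 + ∑ i, u i ^ 2 ^ 0) =
        ∑ o : Option ι, ∏ i, u i ^ (if o = some i then 1 else 0) := by
      rw [Fintype.sum_option]
      simp only [pow_zero, pow_one, reduceCtorEq, if_false, Finset.prod_const_one, Option.some.injEq]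
      congr 1
      refine Finset.sum_congr rfl fun i _ => ?_
      rw [Finset.prod_eq_single i]
      · simp
      · intro b _ hb
        rw [if_neg (fun h => hb h.symm), pow_zero]
      · intro h; exact absurd (Finset.mem_univ i) h
    rw [h2, mul_comm, Finset.sum_mul_sum, ← Finset.sum_product']
    refine Finset.sum_bij (fun p _ => fun i => (if p.1 = some i then 1 else 0) + 2 * p.2 i)
      ?_ ?_ ?_ ?_
    · rintro ⟨o, x⟩ hp
      have hx := (Finset.mem_product.1 hp).2
      rw [mem_DD] at hx ⊢
      obtain ⟨hx1, hx2⟩ := hx
      refine ⟨fun i => ?_, ?_⟩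
      · have := hx1 i
        simp only [pow_succ] at this ⊢
        split_ifs <;> omega
      · have h3 : Dis (fun i => if o = some i then 1 else 0) := by
          rcases o with _ | i0
          · simpa using dis_zero
          · simpa [eq_comm] using dis_single i0
        have := h3.add (β := 1) (fun i => by split_ifs <;> norm_num) hx2
        simpa using this
    · rintro ⟨o, x⟩ _ ⟨o', x'⟩ _ h
      have h3 : ∀ i, (if o = some i then 1 else 0) + 2 * x i =
          (if o' = some i then 1 else 0) + 2 * x' i := fun i => congrFun h i
      have h4 : ∀ i, x i = x' i := by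
        intro i
        have := h3 i
        split_ifs at this <;> omega
      have h5 : ∀ i, o = some i ↔ o' = some i := by
        intro i
        have := h3 i
        have := h4 i
        split_ifs at * <;> simp_all
      have h6 : o = o' := by
        rcases o with _ | i
        · rcases o' with _ | i'
          · rfl
          · exact absurd ((h5 i').2 rfl) (by simp)
        · exact ((h5 i).1 rfl).symm
      rw [h6, funext h4]
    · intro x hx
      rw [mem_DD] at hx
      obtain ⟨hx1, hx2⟩ := hx
      have hd := hx2.div 1
      simp only [pow_one] at hd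
      have h0 := hx2 0
      simp only [pow_zero, Nat.div_one] at h0
      have hmem : ∀ o : Option ι, (o, fun i => x i / 2) ∈ (univ : Finset (Option ι)) ×ˢ DD ι n := by
        intro o
        rw [Finset.mem_product, mem_DD]
        refine ⟨Finset.mem_univ _, fun i => ?_, hd⟩
        have := hx1 i
        rw [pow_succ] at this
        change x i / 2 < _
        omega
      by_cases h : ∃ i0, x i0 % 2 = 1
      · obtain ⟨i0, hi0⟩ := h
        refine ⟨(some i0, fun i => x i / 2), hmem _, ?_⟩
        funext i
        simp only [Option.some.injEq]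
        split_ifs with hi
        · subst hi; omega
        · have h3 := Finset.add_sum_erase univ (fun i => x i % 2) (Finset.mem_univ i0)
          have h4 : x i % 2 ≤ ∑ i ∈ univ.erase i0, x i % 2 :=
            Finset.single_le_sum (f := fun i => x i % 2) (fun _ _ => Nat.zero_le _)
              (Finset.mem_erase.2 ⟨fun h => hi h.symm, Finset.mem_univ i⟩)
          beta_reduce at h3
          omega
      · push Not at h
        refine ⟨(none, fun i => x i / 2), hmem _, ?_⟩
        funext i
        simp only [reduceCtorEq, if_false]
        have := h i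
        omega
    · rintro ⟨o, x⟩ _
      rw [← Finset.prod_mul_distrib]
      refine Finset.prod_congr rfl fun i _ => ?_
      rw [pow_add, pow_mul]

end

/-- two complementary numbers -/
theorem dis_compl (c q : ℕ) (h : q < 2 ^ c) :
    Dis (fun i : Bool => if i then 2 ^ c - 1 - q else q) := by
  induction c generalizing q with
  | zero =>
    have : q = 0 := by simpa using h
    subst this
    convert dis_zero (ι := Bool) using 2
    simp
  | succ c ih =>
    have h1 : q / 2 < 2 ^ c := by rw [pow_succ] at h; omega
    have h2 := ih (q / 2) h1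
    have h3 : Dis (fun i : Bool => if i then 1 - q % 2 else q % 2) := by
      intro j
      rw [Fintype.sum_bool]
      rcases j with _ | j
      · simp; omega
      · have e1 : ∀ r : ℕ, r ≤ 1 → r / 2 ^ (j + 1) = 0 := by
          intro r hr
          rw [Nat.div_eq_of_lt]
          calc r < 2 ^ 1 := by omega
            _ ≤ 2 ^ (j + 1) := Nat.pow_le_pow_right (by norm_num) (by omega)
        simp only [if_true, Bool.false_eq_true, if_false]
        rw [e1 _ (by omega), e1 _ (by omega)]
        norm_num
    have h4 := h3.add (β := 1) (fun i => by split_ifs <;> omega) h2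
    convert h4 using 2 with i
    cases i
    · simp; omega
    · simp only [if_true, pow_succ] at h ⊢
      omega

end Pool.Agent.KS6_35.OV
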