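import Pool.Agent.KS6_35.OV.Arith
import Pool.Agent.KS6_35.OR.Rep
import Pool.Agent.KS6_35.OR.Wr

/-! The arithmetical condition is represented by a list of words. -/

set_option autoImplicit false

namespace Pool.Agent.KS6_35.OV

open Finset Pool.Agent.KS6_35.OR

theorem Rep.congr {f g : Env → ℤ} (hf : Rep f) (h : ∀ ρ, g ρ = f ρ) : Rep g := by
  have : g = f := funext h
  rw [this]; exact hf

theorem rep_sum {ι : Type} (s : Finset ι) {f : ι → Env → ℤ} (h : ∀ i, Rep (f i)) :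
    Rep (fun ρ => ∑ i ∈ s, f i ρ) := by
  classical
  induction s using Finset.induction_on with
  | empty => exact Rep.congr (rep_const 0) fun ρ => by simp
  | insert i s hi ih =>
    exact Rep.congr ((h i).add ih) fun ρ => by rw [Finset.sum_insert hi]

/-- multiplication with a power of two -/
theorem rep_mul_pow {f : Env → ℤ} {e : Env → ℕ} (hf : Rep f) (he : Rep (fun ρ => (e ρ : ℤ))) :
    Rep (fun ρ => f ρ * 2 ^ e ρ) := hf.shift he

theorem rep_oneSub {ι : Type} [Fintype ι] {e : ι → Env → ℕ} {r : Env → ℤ}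
    (he : ∀ i, Rep (fun ρ => (e i ρ : ℤ))) (hr : Rep r) :
    Rep (fun ρ => (1 - ∑ i, 2 ^ e i ρ) * r ρ) := by
  have h := hr.sub (rep_sum univ (fun i => hr.shift (he i)))
  refine Rep.congr h fun ρ => ?_
  rw [sub_mul, one_mul, Finset.sum_mul]
  congr 1
  exact Finset.sum_congr rfl fun i _ => mul_comm _ _

theorem rep_prodSub {κ ι : Type} [Fintype ι] (s : Finset κ) {e : κ → ι → Env → ℕ} {r : Env → ℤ}
    (he : ∀ b i, Rep (fun ρ => (e b i ρ : ℤ))) (hr : Rep r) :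
    Rep (fun ρ => (∏ b ∈ s, (1 - ∑ i, 2 ^ e b i ρ)) * r ρ) := by
  classical
  induction s using Finset.induction_on with
  | empty => exact Rep.congr hr fun ρ => by simp
  | insert b s hb ih =>
    exact Rep.congr (rep_oneSub (he b) ih) fun ρ => by rw [Finset.prod_insert hb]; ring

section

variable (Y : Tab)

/-- the exponent of `β` -/
theorem rep_e0 : Rep (fun ρ => ((ρ.j + ρ.k + (2 * c1 Y + 2) : ℕ) : ℤ)) :=
  Rep.congr ((rep_j.add rep_k).add (rep_const (2 * c1 Y + 2 : ℕ))) fun ρ => by push_cast; ring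

theorem rep_beta : Rep (fun ρ => (beta Y ρ.j ρ.k : ℤ)) :=
  Rep.congr ((rep_const 1).shift (rep_e0 Y)) fun ρ => by unfold beta; push_cast; ring

theorem rep_cc : Rep (fun ρ => (cc Y ρ.j ρ.k : ℤ)) :=
  Rep.congr ((rep_beta Y).sub (rep_const (c1 Y))) fun ρ => by
    have := (growth_bound Y ρ.j ρ.k).1
    unfold cc
    rw [Nat.cast_sub (by omega)]

/-- multiplication with `2 ^ β` -/
theorem rep_mulB {f : Env → ℤ} (hf : Rep f) : Rep (fun ρ => f ρ * 2 ^ beta Y ρ.j ρ.k) :=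
  hf.shift (rep_beta Y)

/-- multiplication with `2 ^ c` -/
theorem rep_mulC {f : Env → ℤ} (hf : Rep f) : Rep (fun ρ => f ρ * 2 ^ cc Y ρ.j ρ.k) :=
  hf.shift (rep_cc Y)

/-- multiplication with `(2 ^ β) ^ M` -/
theorem rep_mulBM {f : Env → ℤ} (hf : Rep f) : Rep (fun ρ => f ρ * (2 ^ beta Y ρ.j ρ.k) ^ ρ.j) := by
  have h1 : Rep (fun ρ => ((beta Y ρ.j ρ.k * ρ.j : ℕ) : ℤ)) :=
    Rep.congr (rep_j.shift (rep_e0 Y)) fun ρ => by unfold beta; push_cast; ring
  exact Rep.congr (hf.shift h1) fun ρ => by rw [pow_mul]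

/-- multiplication with a power of `T` -/
theorem rep_mulT {f : Env → ℤ} (hf : Rep f) (r : ℕ) :
    Rep (fun ρ => f ρ * TT (beta Y ρ.j ρ.k) ρ.j ^ r) := by
  have h1 : Rep (fun ρ => ((beta Y ρ.j ρ.k * (ρ.j + 4) * r : ℕ) : ℤ)) :=
    Rep.congr (((rep_j.add (rep_const 4)).shift (rep_e0 Y)).zmul r) fun ρ => by
      unfold beta; push_cast; ring
  exact Rep.congr (hf.shift h1) fun ρ => by
    unfold TT
    rw [← pow_mul, ← pow_mul, mul_assoc]

theorem rep_nL (b : Fin Y.m) : Rep (fun ρ => (nL Y ρ.j ρ.k b : ℤ)) := by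
  have h1 := rep_mulT Y ((rep_mulB Y (rep_const 1)).sub (rep_const 1)) (Y.m + 1)
  have h2 := rep_mulT Y ((rep_const (b : ℕ)).sub ((rep_mulB Y (rep_const (Y.e b))))) Y.m
  have h3 := rep_mulT Y ((rep_mulC Y (rep_const 1)).sub (rep_const 1)) (b : ℕ)
  refine Rep.congr ((h1.add h2).sub h3) fun ρ => ?_
  rw [nL_cast]
  unfold wL
  ring

theorem rep_nQ (b : Fin Y.m) (i : Bool) : Rep (fun ρ => (nQ Y ρ.j ρ.k b i : ℤ)) := by
  have h1 := rep_mulT Y ((rep_mulB Y (rep_const 1)).sub (rep_const 1)) (Y.m + 1)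
  have h2 := rep_mulT Y (((rep_const Y.m).sub ((rep_mulB Y (rep_const (Y.a b))))).zmul
    (if i then 0 else 1)) Y.m
  have h3 := rep_mulT Y (rep_const 1) (b : ℕ)
  refine Rep.congr ((h1.add h2).add h3) fun ρ => ?_
  rw [nQ_cast]
  unfold wQ
  cases i
  · simp only [Bool.false_eq_true, if_false]; ring
  · simp only [if_true]; ring

theorem rep_nJ : Rep (fun ρ => (nJ Y ρ.j ρ.k : ℤ)) := by
  have h1 := rep_mulT Y (rep_mulC Y ((rep_mulBM Y (rep_const 1)).sub (rep_const 1))) (Y.m + 1)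
  have h2 := rep_mulT Y rep_k Y.m
  refine Rep.congr (h1.add h2) fun ρ => ?_
  rw [nJ_cast]
  unfold JJ
  ring

/-- multiplication with `N` -/
theorem rep_mulN {f : Env → ℤ} (hf : Rep f) : Rep (fun ρ => f ρ * nN Y ρ.j ρ.k) := by
  have h1 : Rep (fun ρ => ((nJ Y ρ.j ρ.k + (3 * Y.m + 1) : ℕ) : ℤ)) :=
    Rep.congr ((rep_nJ Y).add (rep_const (3 * Y.m + 1 : ℕ))) fun ρ => by push_cast; ring
  exact Rep.congr (hf.shift h1) fun ρ => by unfold nN; push_cast; ring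

theorem rep_NJ : Rep (fun ρ => ((nN Y ρ.j ρ.k * nJ Y ρ.j ρ.k : ℕ) : ℤ)) :=
  Rep.congr (rep_mulN Y (rep_nJ Y)) fun ρ => by push_cast; ring

theorem rep_NJ1 : Rep (fun ρ => ((nN Y ρ.j ρ.k * nJ Y ρ.j ρ.k + 1 : ℕ) : ℤ)) :=
  Rep.congr ((rep_NJ Y).add (rep_const 1)) fun ρ => by push_cast; ring

theorem rep_bigD : Rep (fun ρ => bigD Y ρ.j ρ.v ρ.k) := by
  have h0 : Rep (fun ρ => (ρ.v : ℤ) + 2 ^ (nN Y ρ.j ρ.k * nJ Y ρ.j ρ.k)) :=
    Rep.congr (rep_v.add ((rep_const 1).shift (rep_NJ Y))) fun ρ => by ring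
  have h1 : ∀ b i, Rep (fun ρ => ((nN Y ρ.j ρ.k * nQ Y ρ.j ρ.k b i : ℕ) : ℤ)) := fun b i =>
    Rep.congr (rep_mulN Y (rep_nQ Y b i)) fun ρ => by push_cast; ring
  have h2 : ∀ b, Rep (fun ρ => ((nN Y ρ.j ρ.k * nL Y ρ.j ρ.k b : ℕ) : ℤ)) := fun b =>
    Rep.congr (rep_mulN Y (rep_nL Y b)) fun ρ => by push_cast; ring
  have h3 := rep_oneSub h2 (rep_prodSub univ h1 h0)
  refine Rep.congr (h3.sub (rep_const 1)) fun ρ => ?_
  unfold bigD den
  simp only [← pow_mul]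
  ring

/-- the arithmetical conditions -/
def Cond (ρ : Env) : Prop :=
  ρ.v < 2 ^ (nN Y ρ.j ρ.k * nJ Y ρ.j ρ.k) ∧
    (2 : ℤ) ^ (nN Y ρ.j ρ.k * nJ Y ρ.j ρ.k + 1) ∣ bigD Y ρ.j ρ.v ρ.k

/-- the list of the tests -/
theorem exists_tests : ∃ L : List Wd,
      (∀ (K : Type) [Group K] (a t : K) (F : Wd →* K) (ρ : Env), Good a t F ρ →
        Cond Y ρ → ∀ w ∈ L, F w = 1) ∧
      (∀ (F : Wd →* Gh) (k : ℕ), F wA = em 1 0 → F wT = st → F wY = 1 →
        F wP = (em 1 0) ^ (k : ℤ) →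
        (∀ w ∈ L, F w = 1) → ∃ ρ : Env, ρ.k = k ∧ Cond Y ρ) := by
  obtain ⟨w4, h4⟩ := ((rep_const 1).shift (rep_NJ Y)).sub (rep_v.add (rep_const 1))
  obtain ⟨w5, h5⟩ := rep_bigD Y
  obtain ⟨w6, h6⟩ := rep_NJ1 Y
  beta_reduce at h4 h5 h6
  refine ⟨[tC wA (rU wA wT wX), tI wA wT (rU wA wT wX), tI wA wT (rS wA wT wX),
    tN wA wT (rU wA wT wX), tN wA wT (rS wA wT wX), tN wA wT w4, tD wA wT w5 w6], ?_, ?_⟩
  · intro K _ a t F ρ hg hc w hw
    obtain ⟨c4, c5⟩ := hc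
    have hrel := hg.rel
    simp only [List.mem_cons, List.not_mem_nil, or_false] at hw
    rcases hw with rfl | rfl | rfl | rfl | rfl | rfl | rfl
    · rw [map_tC, hg.hA, hg.hV]; unfold tC; group
    · rw [map_tI, hg.hA, hg.hT, hg.hV]; exact tI_zpow hrel _
    · rw [map_tI, hg.hA, hg.hT, hg.hJ]; exact tI_zpow hrel _
    · rw [map_tN, hg.hA, hg.hT, hg.hV]; exact tN_nat hrel _
    · rw [map_tN, hg.hA, hg.hT, hg.hJ]; exact tN_nat hrel _
    · rw [map_tN, hg.hA, hg.hT, h4 K a t F ρ hg]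
      have : ((ρ.v + 1 : ℕ) : ℤ) ≤ (2 ^ (nN Y ρ.j ρ.k * nJ Y ρ.j ρ.k) : ℕ) := by exact_mod_cast c4
      obtain ⟨q, hq⟩ := Int.eq_ofNat_of_zero_le
        (show (0 : ℤ) ≤ 1 * 2 ^ (nN Y ρ.j ρ.k * nJ Y ρ.j ρ.k) - ((ρ.v : ℤ) + 1) by
          push_cast at this ⊢; omega)
      rw [hq]; exact tN_nat hrel _
    · rw [map_tD, hg.hA, hg.hT, h5 K a t F ρ hg, h6 K a t F ρ hg]
      obtain ⟨q, hq⟩ := c5
      rw [hq, mul_comm]
      exact tD_ok hrel _ _
  · intro F k hA hT hY hP hL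
    have g1 := hL _ (by simp : tC wA (rU wA wT wX) ∈ _)
    have g2 := hL _ (by simp : tI wA wT (rU wA wT wX) ∈ _)
    have g3 := hL _ (by simp : tI wA wT (rS wA wT wX) ∈ _)
    have g6 := hL _ (by simp : tN wA wT (rU wA wT wX) ∈ _)
    have g7 := hL _ (by simp : tN wA wT (rS wA wT wX) ∈ _)
    have g12 := hL _ (by simp : tN wA wT w4 ∈ _)
    have g13 := hL _ (by simp : tD wA wT w5 w6 ∈ _)
    rw [map_tC, hA, map_rU, hA, hT] at g1
    obtain ⟨u, s, hu, hs⟩ := rU_sound g1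
    have hu' : F (rU wA wT wX) = em u 0 := by rw [map_rU, hA, hT, hu]
    have hs' : F (rS wA wT wX) = em s 0 := by rw [map_rS, hA, hT, hs]
    rw [map_tI, hA, hT, hu'] at g2
    rw [map_tI, hA, hT, hs'] at g3
    obtain ⟨zu, rfl⟩ := tI_sound g2
    obtain ⟨zs, rfl⟩ := tI_sound g3
    rw [← em_zpow] at hu' hs'
    rw [map_tN, hA, hT, hu'] at g6
    rw [map_tN, hA, hT, hs'] at g7
    obtain ⟨v, rfl⟩ := Int.eq_ofNat_of_zero_le (tN_sound g6)
    obtain ⟨j, rfl⟩ := Int.eq_ofNat_of_zero_le (tN_sound g7)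
    let ρ : Env := ⟨0, j, v, k⟩
    have hg : Good (em 1 0) st F ρ := ⟨rel_Gh, hA, hT, hu', hs', by rw [hY]; simp [ρ], hP⟩
    rw [map_tN, hA, hT, h4 Gh _ _ F ρ hg] at g12
    rw [map_tD, hA, hT, h5 Gh _ _ F ρ hg, h6 Gh _ _ F ρ hg] at g13
    have c4 := tN_sound g12
    have c5 := tD_sound g13
    refine ⟨ρ, rfl, ?_, c5⟩
    have : ((ρ.v + 1 : ℕ) : ℤ) ≤ (2 ^ (nN Y ρ.j ρ.k * nJ Y ρ.j ρ.k) : ℕ) := by
      push_cast at c4 ⊢; omega
    exact_mod_cast this

/-- the main theorem for a group `G` with a homomorphism to the wreath product -/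
theorem main_abs : ∃ w : Wd,
    ∀ (G : Type) [Group G] (a t s : G), bb t a * a * (bb t a)⁻¹ = a ^ 2 →
      ∀ ψ : G →* Wr Gh, ψ a = SemidirectProduct.inr (em 1 0) →
        ψ t = SemidirectProduct.inr st → ψ s = sg Gh → ∀ k : ℕ,
      (∃ x : G, FreeGroup.lift (Sum.elim ![a, t, s] ![x, 1, a ^ k]) w = 1) ↔
        ∃ M : ℕ, Y.g^[M] k = 0 := by
  obtain ⟨L, hL1, hL2⟩ := exists_tests Y
  refine ⟨(L.map fun w => w * wS * w⁻¹).prod * (wS ^ L.length)⁻¹,
    fun G _ a t s hrel ψ ha ht hs k => ?_⟩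
  constructor
  · rintro ⟨x, h⟩
    let F : Wd →* G := FreeGroup.lift (Sum.elim ![a, t, s] ![x, 1, a ^ k])
    change F _ = 1 at h
    have fA : F wA = a := by simp [F, wA]
    have fT : F wT = t := by simp [F, wT]
    have fS : F wS = s := by simp [F, wS]
    have fP : F wP = a ^ k := by simp [F, wP]
    have fY : F wY = 1 := by simp [F, wY]
    let Φ : Wd →* Wr Gh := ψ.comp F
    have h1 := congrArg ψ h
    change Φ _ = _ at h1
    have gS : Φ wS = sg Gh := by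
      change ψ (F wS) = _
      rw [fS, hs]
    rw [map_mul, map_list_prod, List.map_map, map_inv, map_pow, gS, map_one, mul_inv_eq_one] at h1
    have h2 : List.map (Φ ∘ fun w => w * wS * w⁻¹) L =
        List.map (fun w => w * sg Gh * w⁻¹) (L.map Φ) := by
      rw [List.map_map]
      refine List.map_congr_left fun w _ => ?_
      simp only [Function.comp, map_mul, map_inv, gS]
    rw [h2] at h1
    have h3 := all_one (L.map Φ) (by rw [List.length_map]; exact h1)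
    let F' : Wd →* Gh := SemidirectProduct.rightHom.comp Φ
    obtain ⟨ρ, rfl, hc⟩ := hL2 F' k
      (by change SemidirectProduct.rightHom (ψ (F wA)) = _; rw [fA, ha]; simp)
      (by change SemidirectProduct.rightHom (ψ (F wT)) = _; rw [fT, ht]; simp)
      (by change SemidirectProduct.rightHom (ψ (F wY)) = _; rw [fY, map_one, map_one])
      (by change SemidirectProduct.rightHom (ψ (F wP)) = _
          rw [fP, map_pow, map_pow, ha, SemidirectProduct.rightHom_inr, zpow_natCast])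
      (fun w hw => h3 (Φ w) (List.mem_map_of_mem hw))
    exact ⟨ρ.j, (arith Y ρ.j ρ.k).1 ⟨ρ.v, hc⟩⟩
  · rintro ⟨M, hM⟩
    obtain ⟨v, hc⟩ := (arith Y M k).2 hM
    let ρ : Env := ⟨0, M, v, k⟩
    let x : G := a ^ (ρ.v : ℤ) * t * a ^ (ρ.j : ℤ)
    refine ⟨x, ?_⟩
    let F : Wd →* G := FreeGroup.lift (Sum.elim ![a, t, s] ![x, 1, a ^ k])
    change F _ = 1
    have fA : F wA = a := by simp [F, wA]
    have fT : F wT = t := by simp [F, wT]
    have fS : F wS = s := by simp [F, wS]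
    have fX : F wX = x := by simp [F, wX]
    have fY : F wY = 1 := by simp [F, wY]
    have fP : F wP = a ^ k := by simp [F, wP]
    have hg : Good a t F ρ := by
      refine ⟨hrel, fA, fT, ?_, ?_, ?_, ?_⟩
      · rw [map_rU, fA, fT, fX]; exact rU_eq hrel _ _
      · rw [map_rS, fA, fT, fX]; exact rS_eq hrel _ _
      · rw [fY]; simp [ρ]
      · rw [fP, zpow_natCast]
    have h1 := hL1 G a t F ρ hg hc
    rw [map_mul, map_list_prod, List.map_map, map_inv, map_pow, fS]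
    have h2 : List.map (F ∘ fun w => w * wS * w⁻¹) L = List.map (fun _ => s) L := by
      refine List.map_congr_left fun w hw => ?_
      simp only [Function.comp, map_mul, map_inv, h1 w hw, fS]
      simp
    rw [h2, List.map_const', List.prod_replicate, mul_inv_cancel]

end

end Pool.Agent.KS6_35.OV
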