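import Pool.Agent.KS6_35.OV.Coll
import Pool.Agent.KS6_35.OV.Rep
import Pool.Agent.KS6_35.OR.Words

/-! The main theorem for the one-relator group, and substitutions in words. -/

set_option autoImplicit false

namespace Pool.Agent.KS6_35.OV

open Pool.Agent.KS6_35.OR Pool.Agent.KS6_35.OR.Eqs

/-- the substitution `x ↦ x`, `y ↦ 1`, `p ↦ a ^ (S₀ 2 ^ k)` if `p = a ^ k` -/
def phi (S₀ : ℕ) : Wd →* FreeGroup (Fin 3 ⊕ Fin 2) :=
  FreeGroup.lift (Sum.elim (fun i => FreeGroup.of (Sum.inl i))
    ![FreeGroup.of (Sum.inr 0), 1, (sc (FreeGroup.of (Sum.inl 1)) (FreeGroup.of (Sum.inl 0))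
      (FreeGroup.of (Sum.inr 1))) ^ S₀])

theorem lift_phi (S₀ k : ℕ) (x : G) (w : Wd) :
    FreeGroup.lift (Sum.elim PresentedGroup.of ![x, a ^ k]) (phi S₀ w) =
      FreeGroup.lift (Sum.elim ![a, PresentedGroup.of 1, PresentedGroup.of 2]
        ![x, 1, a ^ (S₀ * 2 ^ k)]) w := by
  have h : (FreeGroup.lift (Sum.elim PresentedGroup.of ![x, a ^ k])).comp (phi S₀) =
      (FreeGroup.lift (Sum.elim ![a, PresentedGroup.of 1, PresentedGroup.of 2]
        ![x, 1, a ^ (S₀ * 2 ^ k)]) : Wd →* G) := by
    refine FreeGroup.ext_hom _ _ fun l => ?_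
    rcases l with i | i
    · fin_cases i
      · simp [phi, a]
      · simp [phi]
      · simp [phi]
    · fin_cases i
      · simp [phi]
      · simp [phi]
      · have h1 := sc_nat rel_G k 1
        rw [zpow_one, one_mul, zpow_natCast] at h1
        have h2 : ((2 : ℤ) ^ k) = ((2 ^ k : ℕ) : ℤ) := by push_cast; rfl
        rw [h2, zpow_natCast] at h1
        change FreeGroup.lift (Sum.elim PresentedGroup.of ![x, a ^ k]) (phi S₀ (FreeGroup.of
          (Sum.inr 2))) = FreeGroup.lift (Sum.elim ![a, PresentedGroup.of 1, PresentedGroup.of 2]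
          ![x, 1, a ^ (S₀ * 2 ^ k)]) (FreeGroup.of (Sum.inr 2))
        simp only [phi, FreeGroup.lift_apply_of, Sum.elim_inr]
        change FreeGroup.lift (Sum.elim PresentedGroup.of ![x, a ^ k])
          ((sc (FreeGroup.of (Sum.inl 1)) (FreeGroup.of (Sum.inl 0))
            (FreeGroup.of (Sum.inr 1))) ^ S₀) = a ^ (S₀ * 2 ^ k)
        rw [map_pow, map_sc]
        simp only [FreeGroup.lift_apply_of, Sum.elim_inl, Sum.elim_inr]
        change (sc (PresentedGroup.of 1) a (a ^ k)) ^ S₀ = a ^ (S₀ * 2 ^ k)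
        rw [h1, ← pow_mul, mul_comm]
  exact DFunLike.congr_fun h w

/-- every recursively enumerable set is given by one word -/
theorem key1 {S : ℕ → Prop} (hS : REPred S) : ∃ w : Word 2, ∀ k : ℕ,
    S k ↔ ∃ x : G, value ![x, a ^ k] w = 1 := by
  obtain ⟨Y, S₀, hY⟩ := exists_tab_re hS
  obtain ⟨w, hw⟩ := main_abs Y
  refine ⟨(phi S₀ w).toWord, fun k => ?_⟩
  have h := hw G a (PresentedGroup.of 1) (PresentedGroup.of 2) rel_G psi
    (by unfold psi a; rw [PresentedGroup.toGroup.of]; rfl)
    (by unfold psi; rw [PresentedGroup.toGroup.of]; rfl)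
    (by unfold psi; rw [PresentedGroup.toGroup.of]; rfl) (S₀ * 2 ^ k)
  have hv : ∀ x : G, value ![x, a ^ k] (phi S₀ w).toWord =
      FreeGroup.lift (Sum.elim ![a, PresentedGroup.of 1, PresentedGroup.of 2]
        ![x, 1, a ^ (S₀ * 2 ^ k)]) w := by
    intro x
    unfold value
    rw [FreeGroup.mk_toWord]
    exact lift_phi S₀ k x w
  rw [hY k, ← h]
  simp only [hv]

/-- substitute `aᵏ` for the last letter -/
def subst1 (k : ℕ) (w : Word 2) : Word 1 :=
  w.flatMap fun l => match l.1 with
    | Sum.inl i => [(Sum.inl i, l.2)]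
    | Sum.inr j => if j = 0 then [(Sum.inr 0, l.2)] else List.replicate k (Sum.inl 0, l.2)

theorem value_subst1 (k : ℕ) (w : Word 2) (x : G) :
    value ![x] (subst1 k w) = value ![x, a ^ k] w := by
  unfold value
  rw [FreeGroup.lift_mk, FreeGroup.lift_mk]
  induction w with
  | nil => rfl
  | cons l w ih =>
    unfold subst1 at ih ⊢
    rw [List.flatMap_cons, List.map_append, List.prod_append, ih, List.map_cons, List.prod_cons]
    congr 1
    obtain ⟨l, b⟩ := l
    rcases l with i | j
    · simp
    · fin_cases j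
      · simp
      · cases b
        · simp [a]
        · simp [a]

theorem computable_subst1 (w : Word 2) : Computable fun k : ℕ => subst1 k w := by
  apply Primrec.to_comp
  induction w with
  | nil => exact Primrec.const []
  | cons l w ih =>
    have h : (fun k : ℕ => subst1 k (l :: w)) = fun k => subst1 k [l] ++ subst1 k w := by
      funext k
      simp [subst1]
    rw [h]
    refine Primrec.list_append.comp ?_ ih
    obtain ⟨l, b⟩ := l
    rcases l with i | j
    · exact (Primrec.const [(Sum.inl i, b)]).of_eq fun k => by simp [subst1]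
    · fin_cases j
      · exact (Primrec.const [(Sum.inr 0, b)]).of_eq fun k => by simp [subst1]
      · exact (computable_replicate ((Sum.inl 0, b) : (Fin 3 ⊕ Fin 1) × Bool)).of_eq
          fun k => by simp [subst1]

/-- the single one-variable equation problem is undecidable -/
theorem undecidable : ¬ ComputablePred (fun w : Word 1 => ∃ x : G, value ![x] w = 1) := by
  intro h
  refine not_computable_halt ?_
  obtain ⟨w, hw⟩ := key1 rePred_halt
  refine ComputablePred.computable_of_manyOneReducible
    ⟨fun k => subst1 k w, computable_subst1 w, fun k => ?_⟩ h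
  rw [hw]
  simp only [value_subst1]

end Pool.Agent.KS6_35.OV
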