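import Pool.Agent.KS6_35.OV.Agg

/-! The coefficients of the inverse of a sparse power series: bounds and parity. -/

set_option autoImplicit false

namespace Pool.Agent.KS6_35.OV

open Finset PowerSeries

section bound

/-- the coefficients are between `0` and `C ^ p` -/
def Bd (C : ℕ) (E : PowerSeries ℤ) : Prop := ∀ p, 0 ≤ coeff p E ∧ coeff p E ≤ (C : ℤ) ^ p

theorem bd_one : Bd 1 1 := by
  intro p
  rw [coeff_one]
  split_ifs <;> simp

theorem Bd.mul {C C' : ℕ} {E E' : PowerSeries ℤ} (h : Bd C E) (h' : Bd C' E') :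
    Bd (C + C') (E * E') := by
  intro p
  rw [coeff_mul]
  constructor
  · exact Finset.sum_nonneg fun x _ => mul_nonneg (h x.1).1 (h' x.2).1
  · calc ∑ x ∈ antidiagonal p, coeff x.1 E * coeff x.2 E' ≤
          ∑ x ∈ antidiagonal p, (C : ℤ) ^ x.1 * (C' : ℤ) ^ x.2 := by
          refine Finset.sum_le_sum fun x _ => ?_
          exact mul_le_mul (h x.1).2 (h' x.2).2 (h' x.2).1 (by positivity)
      _ = ∑ i ∈ range (p + 1), (C : ℤ) ^ i * (C' : ℤ) ^ (p - i) :=
          Finset.Nat.sum_antidiagonal_eq_sum_range_succ (fun i j => (C : ℤ) ^ i * (C' : ℤ) ^ j) p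
      _ ≤ ∑ i ∈ range (p + 1), (C : ℤ) ^ i * (C' : ℤ) ^ (p - i) * (p.choose i : ℤ) := by
          refine Finset.sum_le_sum fun i hi => ?_
          have h1 : 1 ≤ p.choose i := Nat.choose_pos (by have := Finset.mem_range.1 hi; omega)
          have h2 : (1 : ℤ) ≤ p.choose i := by exact_mod_cast h1
          exact le_mul_of_one_le_right (by positivity) h2
      _ = ((C : ℤ) + C') ^ p := (add_pow _ _ _).symm
      _ = ((C + C' : ℕ) : ℤ) ^ p := by push_cast; rfl

theorem inv_bound {ι : Type} [Fintype ι] (W : ι → ℕ) (hW : ∀ i, 1 ≤ W i) (C : ℕ)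
    (hC : Fintype.card ι ≤ C) : ∃ E : PowerSeries ℤ, (1 - ∑ i, X ^ W i) * E = 1 ∧ Bd C E := by
  let D : PowerSeries ℤ := 1 - ∑ i, X ^ W i
  have hD : constantCoeff D = ((1 : ℤˣ) : ℤ) := by
    simp only [D, map_sub, map_one, map_sum, map_pow, constantCoeff_X, Units.val_one]
    rw [Finset.sum_eq_zero, sub_zero]
    intro i _
    exact zero_pow (by have := hW i; omega)
  refine ⟨invOfUnit D 1, mul_invOfUnit D 1 hD, ?_⟩
  set E := invOfUnit D 1 with hE
  have h1 : D * E = 1 := mul_invOfUnit D 1 hD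
  have hrec : ∀ p, coeff p E = (if p = 0 then 1 else 0) +
      ∑ i, if W i ≤ p then coeff (p - W i) E else 0 := by
    intro p
    have h2 := congrArg (coeff p) h1
    rw [coeff_one] at h2
    simp only [D, sub_mul, one_mul, map_sub, Finset.sum_mul, map_sum, coeff_X_pow_mul'] at h2
    rw [← h2]; ring
  intro p
  induction p using Nat.strong_induction_on with
  | _ p ih =>
    rcases Nat.eq_zero_or_pos p with rfl | hp
    · rw [hrec 0, Finset.sum_eq_zero fun i _ => if_neg (by have := hW i; omega)]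
      simp
    · rw [hrec p, if_neg (by omega), zero_add]
      constructor
      · refine Finset.sum_nonneg fun i _ => ?_
        split_ifs
        · exact (ih _ (by have := hW i; omega)).1
        · rfl
      · by_cases hι : Fintype.card ι = 0
        · rw [Fintype.card_eq_zero_iff] at hι
          simp only [Finset.univ_eq_empty, Finset.sum_empty]
          positivity
        have hC1 : (1 : ℤ) ≤ C := by
          have : 1 ≤ C := by omega
          exact_mod_cast this
        calc ∑ i, (if W i ≤ p then coeff (p - W i) E else 0) ≤ ∑ i : ι, (C : ℤ) ^ (p - 1) := by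
              refine Finset.sum_le_sum fun i _ => ?_
              split_ifs
              · exact (ih _ (by have := hW i; omega)).2.trans
                  (pow_le_pow_right₀ hC1 (by have := hW i; omega))
              · positivity
          _ = Fintype.card ι * (C : ℤ) ^ (p - 1) := by simp
          _ ≤ C * (C : ℤ) ^ (p - 1) :=
              mul_le_mul_of_nonneg_right (by exact_mod_cast hC) (by positivity)
          _ = (C : ℤ) ^ p := by
              obtain ⟨q, rfl⟩ : ∃ q, p = q + 1 := ⟨p - 1, by omega⟩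
              rw [Nat.add_sub_cancel]; ring

end bound

section

variable {m : ℕ}

/-- the denominator -/
def den {R : Type} [CommRing R] (WL : Fin m → ℕ) (WQ : Fin m → Bool → ℕ) (z : R) : R :=
  (1 - ∑ b, z ^ WL b) * ∏ b, (1 - ∑ i, z ^ WQ b i)

theorem map_den {R S : Type} [CommRing R] [CommRing S] (f : R →+* S) (WL : Fin m → ℕ)
    (WQ : Fin m → Bool → ℕ) (z : R) : f (den WL WQ z) = den WL WQ (f z) := by
  unfold den
  simp only [map_mul, map_sub, map_one, map_sum, map_pow, map_prod]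

/-- the weight of a tuple -/
def wt (WL : Fin m → ℕ) (WQ : Fin m → Bool → ℕ) (L : Fin m → ℕ) (Q : Fin m → Bool → ℕ) : ℕ :=
  ∑ b, WL b * L b + ∑ b, ∑ i, WQ b i * Q b i

variable (WL : Fin m → ℕ) (WQ : Fin m → Bool → ℕ) (hL : ∀ b, 1 ≤ WL b) (hQ : ∀ b i, 1 ≤ WQ b i)

include hL hQ

theorem exists_inv : ∃ E : PowerSeries ℤ, den WL WQ X * E = 1 ∧ Bd (3 * m + 1) E := by
  classical
  obtain ⟨E0, h1, h2⟩ := inv_bound WL hL m (by simp)
  have h3 : ∀ s : Finset (Fin m), ∃ E : PowerSeries ℤ,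
      (∏ b ∈ s, (1 - ∑ i, X ^ WQ b i)) * E = 1 ∧ Bd (2 * s.card + 1) E := by
    intro s
    induction s using Finset.induction_on with
    | empty => exact ⟨1, by simp, by simpa using bd_one⟩
    | insert b s hb ih =>
      obtain ⟨E, e1, e2⟩ := ih
      obtain ⟨E', e3, e4⟩ := inv_bound (WQ b) (hQ b) 2 (by simp)
      refine ⟨E' * E, ?_, ?_⟩
      · rw [Finset.prod_insert hb]
        calc _ = ((1 - ∑ i, X ^ WQ b i) * E') * ((∏ b ∈ s, (1 - ∑ i, X ^ WQ b i)) * E) := by ring
          _ = 1 := by rw [e1, e3, one_mul]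
      · have := e4.mul e2
        rw [Finset.card_insert_of_notMem hb]
        rw [show 2 * (s.card + 1) + 1 = 2 + (2 * s.card + 1) by ring]
        exact this
  obtain ⟨E1, h4, h5⟩ := h3 univ
  refine ⟨E0 * E1, ?_, ?_⟩
  · unfold den
    calc _ = ((1 - ∑ b, X ^ WL b) * E0) * ((∏ b, (1 - ∑ i, X ^ WQ b i)) * E1) := by ring
      _ = 1 := by rw [h1, h4, one_mul]
  · have := h2.mul h5
    rw [Finset.card_univ, Fintype.card_fin] at this
    rw [show 3 * m + 1 = m + (2 * m + 1) by ring]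
    exact this

omit hL hQ in
theorem telescope {R : Type} [CommRing R] (x : R) (n : ℕ) :
    (1 - x) * ∏ j ∈ range n, (1 + x ^ 2 ^ j) = 1 - x ^ 2 ^ n := by
  induction n with
  | zero => simp
  | succ n ih => rw [prod_range_succ, ← mul_assoc, ih, pow_succ]; ring

omit hL hQ in
theorem factor {R : Type} [CommRing R] [CharP R 2] {ι : Type} [Fintype ι] (u : ι → R) (n : ℕ) :
    (1 - ∑ i, u i) * ∏ j ∈ range n, (1 + ∑ i, u i ^ 2 ^ j) = 1 - ∑ i, u i ^ 2 ^ n := by
  have : ExpChar R 2 := ExpChar.prime Nat.prime_two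
  have h : ∀ j, ∑ i, u i ^ 2 ^ j = (∑ i, u i) ^ 2 ^ j := fun j =>
    (sum_pow_char_pow 2 j univ u).symm
  simp_rw [h]
  exact telescope _ n

theorem coeff_parity (E : PowerSeries ℤ) (hE : den WL WQ X * E = 1) (n J : ℕ) (hJ : J < 2 ^ n) :
    ((coeff J E : ℤ) : ZMod 2) =
      ((((DD (Fin m) n) ×ˢ (Fintype.piFinset fun _ : Fin m => DD Bool n)).filter
        (fun p => wt WL WQ p.1 p.2 = J)).card : ZMod 2) := by
  classical
  let φ : PowerSeries ℤ →+* PowerSeries (ZMod 2) := PowerSeries.map (Int.castRingHom (ZMod 2))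
  have : CharP (PowerSeries (ZMod 2)) 2 := charP_of_injective_ringHom (f := PowerSeries.C) PowerSeries.C_injective 2
  have h1 : den WL WQ (X : PowerSeries (ZMod 2)) * φ E = 1 := by
    have := congrArg φ hE
    rw [map_mul, map_den, map_one, PowerSeries.map_X] at this
    exact this
  let P : PowerSeries (ZMod 2) := (∏ j ∈ range n, (1 + ∑ b, (X ^ WL b) ^ 2 ^ j)) *
    ∏ b, ∏ j ∈ range n, (1 + ∑ i, (X ^ WQ b i) ^ 2 ^ j)
  have h2 : den WL WQ (X : PowerSeries (ZMod 2)) * P =
      (1 - ∑ b, (X ^ WL b) ^ 2 ^ n) * ∏ b, (1 - ∑ i, (X ^ WQ b i) ^ 2 ^ n) := by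
    unfold den
    simp only [P]
    rw [mul_mul_mul_comm, factor, ← Finset.prod_mul_distrib]
    congr 1
    exact Finset.prod_congr rfl fun b _ => factor _ _
  let I := Ideal.span {(X : PowerSeries (ZMod 2)) ^ 2 ^ n}
  have h3 : (X : PowerSeries (ZMod 2)) ^ 2 ^ n ∣ den WL WQ X * P - 1 := by
    rw [h2, ← Ideal.mem_span_singleton, ← Ideal.Quotient.eq]
    simp only [map_mul, map_sub, map_one, map_sum, map_prod]
    have hz : ∀ w, 1 ≤ w → Ideal.Quotient.mk (Ideal.span {(X : PowerSeries (ZMod 2)) ^ 2 ^ n})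
        ((X ^ w) ^ 2 ^ n) = 0 := by
      intro w hw
      rw [Ideal.Quotient.eq_zero_iff_mem, Ideal.mem_span_singleton, ← pow_mul, mul_comm, pow_mul]
      exact dvd_pow_self _ (by omega)
    simp only [fun b => hz _ (hL b), fun b i => hz _ (hQ b i), sum_const_zero, sub_zero, one_mul,
      prod_const_one]
  have h4 : (X : PowerSeries (ZMod 2)) ^ 2 ^ n ∣ P - φ E := by
    have h5 : P - φ E = φ E * (den WL WQ X * P - 1) := by
      linear_combination (-P) * h1
    rw [h5]
    exact h3.mul_left _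
  have h6 : coeff J P = coeff J (φ E) := by
    have := X_pow_dvd_iff.1 h4 J hJ
    rw [map_sub, sub_eq_zero] at this
    exact this
  have h7 : coeff J (φ E) = ((coeff J E : ℤ) : ZMod 2) := by
    simp [φ]
  rw [← h7, ← h6]
  have h8 : P = ∑ p ∈ (DD (Fin m) n) ×ˢ (Fintype.piFinset fun _ : Fin m => DD Bool n),
      X ^ wt WL WQ p.1 p.2 := by
    simp only [P]
    rw [prod_eq_sum_DD]
    simp_rw [prod_eq_sum_DD]
    rw [Finset.prod_univ_sum, Finset.sum_mul_sum, ← Finset.sum_product']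
    refine Finset.sum_congr rfl fun p _ => ?_
    unfold wt
    rw [pow_add, ← Finset.prod_pow_eq_pow_sum, ← Finset.prod_pow_eq_pow_sum]
    simp_rw [← Finset.prod_pow_eq_pow_sum, pow_mul]
  rw [h8, map_sum]
  simp only [coeff_X_pow]
  rw [Finset.sum_boole]
  congr 2
  ext p
  simp only [Finset.mem_filter, eq_comm]

/-- the parity of the coefficient when there is at most one tuple of the weight `J` -/
theorem odd_iff (E : PowerSeries ℤ) (hE : den WL WQ X * E = 1) (J : ℕ)
    (huniq : ∀ L Q L' Q', Dis L → (∀ b, Dis (Q b)) → wt WL WQ L Q = J →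
      Dis L' → (∀ b, Dis (Q' b)) → wt WL WQ L' Q' = J → L = L' ∧ Q = Q') :
    Odd (coeff J E) ↔ ∃ L Q, Dis L ∧ (∀ b, Dis (Q b)) ∧ wt WL WQ L Q = J := by
  classical
  have h1 := coeff_parity WL WQ hL hQ E hE J J Nat.lt_two_pow_self
  set S := ((DD (Fin m) J) ×ˢ (Fintype.piFinset fun _ : Fin m => DD Bool J)).filter
        (fun p => wt WL WQ p.1 p.2 = J) with hS
  have hmem : ∀ L Q, (L, Q) ∈ S ↔ Dis L ∧ (∀ b, Dis (Q b)) ∧ wt WL WQ L Q = J := by
    intro L Q
    rw [hS, Finset.mem_filter, Finset.mem_product, Fintype.mem_piFinset]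
    simp only [mem_DD]
    constructor
    · rintro ⟨⟨⟨_, h⟩, h'⟩, h''⟩
      exact ⟨h, fun b => (h' b).2, h''⟩
    · rintro ⟨h, h', h''⟩
      have hJ : J < 2 ^ J := Nat.lt_two_pow_self
      refine ⟨⟨⟨fun b => ?_, h⟩, fun b => ⟨fun i => ?_, h' b⟩⟩, h''⟩
      · have g1 : L b ≤ WL b * L b := Nat.le_mul_of_pos_left _ (hL b)
        have g2 : WL b * L b ≤ ∑ b, WL b * L b :=
          Finset.single_le_sum (f := fun b => WL b * L b) (fun _ _ => Nat.zero_le _)
            (Finset.mem_univ b)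
        unfold wt at h''
        omega
      · have g1 : Q b i ≤ WQ b i * Q b i := Nat.le_mul_of_pos_left _ (hQ b i)
        have g2 : WQ b i * Q b i ≤ ∑ i, WQ b i * Q b i :=
          Finset.single_le_sum (f := fun i => WQ b i * Q b i) (fun _ _ => Nat.zero_le _)
            (Finset.mem_univ i)
        have g3 : ∑ i, WQ b i * Q b i ≤ ∑ b, ∑ i, WQ b i * Q b i :=
          Finset.single_le_sum (f := fun b => ∑ i, WQ b i * Q b i) (fun _ _ => Nat.zero_le _)
            (Finset.mem_univ b)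
        unfold wt at h''
        omega
  have hle : S.card ≤ 1 := by
    rw [Finset.card_le_one]
    rintro ⟨L, Q⟩ h ⟨L', Q'⟩ h'
    rw [hmem] at h h'
    obtain ⟨e1, e2⟩ := huniq L Q L' Q' h.1 h.2.1 h.2.2 h'.1 h'.2.1 h'.2.2
    rw [e1, e2]
  have h2 : Odd (coeff J E) ↔ S.card = 1 := by
    rw [← ZMod.intCast_eq_one_iff_odd, h1]
    interval_cases hc : S.card
    · simp
    · simp
  rw [h2, Finset.card_eq_one]
  constructor
  · rintro ⟨⟨L, Q⟩, h⟩
    have : (L, Q) ∈ S := by rw [h]; exact Finset.mem_singleton_self _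
    exact ⟨L, Q, (hmem L Q).1 this⟩
  · rintro ⟨L, Q, h⟩
    rw [← Finset.card_eq_one]
    have h3 := (hmem L Q).2 h
    have := Finset.card_pos.2 ⟨_, h3⟩
    omega

end

end Pool.Agent.KS6_35.OV
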