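import Pool.Agent.KS6_35.OV.Dis

/-! The orbit of a generalised Collatz map as the solution of a system of linear equations in
numbers with disjoint binary digits. -/

set_option autoImplicit false

namespace Pool.Agent.KS6_35.OV

open Finset

/-- the table of a generalised Collatz map `m q + b ↦ a_b q + e_b` -/
structure Tab where
  m : ℕ
  hm : 0 < m
  a : Fin m → ℕ
  e : Fin m → ℕ

/-- the residue -/
def Tab.res (Y : Tab) (x : ℕ) : Fin Y.m := ⟨x % Y.m, Nat.mod_lt _ Y.hm⟩

/-- the map -/
def Tab.g (Y : Tab) (x : ℕ) : ℕ := Y.a (Y.res x) * (x / Y.m) + Y.e (Y.res x)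

/-- the system of equations for an orbit of length `M` which begins with `k` and ends with `0` -/
structure Sol (Y : Tab) (β c M k : ℕ) (L : Fin Y.m → ℕ) (Q : Fin Y.m → Bool → ℕ) : Prop where
  dL : Dis L
  dQ : ∀ b, Dis (Q b)
  s1 : ∑ b, L b = ∑ t ∈ range M, (2 ^ β) ^ t
  s2 : ∀ b, Q b false + Q b true = (2 ^ c - 1) * L b
  s3 : ∑ b, (Y.m * Q b false + b * L b) = k + 2 ^ β * ∑ b, (Y.a b * Q b false + Y.e b * L b)

variable {Y : Tab} {β c : ℕ}

theorem split_digit {B u v x y : ℕ} (hu : u < B) (hv : v < B) (h : u + B * x = v + B * y) :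
    u = v ∧ x = y := by
  have h1 : u = v := by
    have := congrArg (· % B) h
    simpa [Nat.add_mul_mod_self_left, Nat.mod_eq_of_lt hu, Nat.mod_eq_of_lt hv] using this
  subst h1
  exact ⟨rfl, Nat.eq_of_mul_eq_mul_left (by omega) (Nat.add_left_cancel h)⟩

theorem exists_one {ι : Type} [Fintype ι] [DecidableEq ι] {l : ι → ℕ} (h : ∑ i, l i = 1) :
    ∃ i0, ∀ i, l i = if i = i0 then 1 else 0 := by
  obtain ⟨i0, hi0⟩ : ∃ i0, l i0 ≠ 0 := by
    by_contra hc
    push Not at hc
    rw [Finset.sum_eq_zero (fun i _ => hc i)] at h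
    omega
  refine ⟨i0, fun i => ?_⟩
  have h3 := Finset.add_sum_erase univ l (Finset.mem_univ i0)
  split_ifs with hi
  · subst hi; omega
  · have h4 : l i ≤ ∑ i ∈ univ.erase i0, l i :=
      Finset.single_le_sum (f := l) (fun _ _ => Nat.zero_le _)
        (Finset.mem_erase.2 ⟨hi, Finset.mem_univ i⟩)
    omega

/-- the parameters are large -/
structure Big (Y : Tab) (β c : ℕ) : Prop where
  pos : 1 ≤ β
  hm : Y.m * 2 ^ c ≤ 2 ^ β
  ha : ∀ b, (Y.a b + Y.e b) * 2 ^ c < 2 ^ β

/-- the first digits of a solution -/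
def q0 (Y : Tab) (c k : ℕ) (b : Fin Y.m) (i : Bool) : ℕ :=
  if b = Y.res k then (if i then 2 ^ c - 1 - k / Y.m else k / Y.m) else 0

theorem geom_succ (B M : ℕ) : ∑ t ∈ range (M + 1), B ^ t = 1 + B * ∑ t ∈ range M, B ^ t := by
  rw [sum_range_succ', mul_sum]
  simp only [pow_succ', pow_zero]
  rw [add_comm]

theorem Sol.step {M k : ℕ} {L : Fin Y.m → ℕ} {Q : Fin Y.m → Bool → ℕ} (hB : Big Y β c)
    (hk : k < 2 ^ β) (h : Sol Y β c (M + 1) k L Q) :
    (∀ b, L b % 2 ^ β = if b = Y.res k then 1 else 0) ∧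
      (∀ b i, Q b i % 2 ^ β = q0 Y c k b i) ∧
      Sol Y β c M (Y.g k) (fun b => L b / 2 ^ β) (fun b i => Q b i / 2 ^ β) ∧ Y.g k < 2 ^ β := by
  set B := 2 ^ β with hBdef
  have hB2 : 2 ≤ B := by
    calc 2 = 2 ^ 1 := by norm_num
      _ ≤ B := Nat.pow_le_pow_right (by norm_num) hB.pos
  have h2c : 2 ^ c ≤ B := le_trans (Nat.le_mul_of_pos_left _ Y.hm) hB.hm
  have hc0 : 0 < 2 ^ c := by positivity
  have hL : ∀ b, L b = L b % B + B * (L b / B) := fun b => (Nat.mod_add_div _ _).symm
  have hQ : ∀ b i, Q b i = Q b i % B + B * (Q b i / B) := fun b i => (Nat.mod_add_div _ _).symm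
  -- the first equation
  have e1 := h.s1
  rw [geom_succ, Finset.sum_congr rfl fun b _ => hL b, sum_add_distrib, ← mul_sum] at e1
  obtain ⟨e1a, e1b⟩ := split_digit (h.dL.mod_lt β) (by omega) e1
  obtain ⟨b1, hb1⟩ := exists_one e1a
  -- the second equations
  have e2 : ∀ b, Q b false % B + Q b true % B = (2 ^ c - 1) * (L b % B) ∧
      Q b false / B + Q b true / B = (2 ^ c - 1) * (L b / B) := by
    intro b
    have e3 := h.s2 b
    rw [hL b, hQ b false, hQ b true] at e3
    have e4 : (Q b false % B + Q b true % B) + B * (Q b false / B + Q b true / B) =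
        (2 ^ c - 1) * (L b % B) + B * ((2 ^ c - 1) * (L b / B)) := by
      linear_combination e3
    refine split_digit ?_ ?_ e4
    · have := (h.dQ b).mod_lt β
      rw [Fintype.sum_bool, ← hBdef, add_comm] at this
      exact this
    · rw [hb1 b]
      split_ifs <;> omega
  have hq : ∀ b i, b ≠ b1 → Q b i % B = 0 := by
    intro b i hb
    have := (e2 b).1
    rw [hb1 b, if_neg hb, mul_zero] at this
    cases i <;> omega
  have hqb := (e2 b1).1
  rw [hb1 b1, if_pos rfl, mul_one] at hqb
  -- the third equation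
  have e5 := h.s3
  have s1 : ∑ b, (Y.m * Q b false + b * L b) =
      (Y.m * (Q b1 false % B) + b1) + B * ∑ b, (Y.m * (Q b false / B) + b * (L b / B)) := by
    have t1 : ∑ b, (Y.m * (Q b false % B) + (b : ℕ) * (L b % B)) =
        Y.m * (Q b1 false % B) + b1 := by
      rw [Finset.sum_eq_single b1]
      · rw [hb1 b1, if_pos rfl, mul_one]
      · intro b _ hb
        rw [hq b false hb, hb1 b, if_neg hb]; simp
      · intro hh; exact absurd (Finset.mem_univ b1) hh
    rw [← t1, mul_sum, ← sum_add_distrib]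
    refine Finset.sum_congr rfl fun b _ => ?_
    nth_rewrite 1 [hQ b false]
    nth_rewrite 1 [hL b]
    ring
  have s2 : ∑ b, (Y.a b * Q b false + Y.e b * L b) =
      (Y.a b1 * (Q b1 false % B) + Y.e b1) +
        B * ∑ b, (Y.a b * (Q b false / B) + Y.e b * (L b / B)) := by
    have t1 : ∑ b, (Y.a b * (Q b false % B) + Y.e b * (L b % B)) =
        Y.a b1 * (Q b1 false % B) + Y.e b1 := by
      rw [Finset.sum_eq_single b1]
      · rw [hb1 b1, if_pos rfl, mul_one]
      · intro b _ hb
        rw [hq b false hb, hb1 b, if_neg hb]; simp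
      · intro hh; exact absurd (Finset.mem_univ b1) hh
    rw [← t1, mul_sum, ← sum_add_distrib]
    refine Finset.sum_congr rfl fun b _ => ?_
    nth_rewrite 1 [hQ b false]
    nth_rewrite 1 [hL b]
    ring
  rw [s1, s2] at e5
  have hlow : Y.m * (Q b1 false % B) + b1 < B := by
    have h6 : Q b1 false % B + 1 ≤ 2 ^ c := by omega
    have h7 : (b1 : ℕ) < Y.m := b1.2
    calc Y.m * (Q b1 false % B) + b1 < Y.m * (Q b1 false % B) + Y.m := by omega
      _ = Y.m * (Q b1 false % B + 1) := by ring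
      _ ≤ Y.m * 2 ^ c := Nat.mul_le_mul_left _ h6
      _ ≤ B := hB.hm
  obtain ⟨e6, e7⟩ := split_digit hlow hk e5
  have hres : b1 = Y.res k := by
    apply Fin.ext
    change (b1 : ℕ) = k % Y.m
    rw [← e6, Nat.mul_add_mod, Nat.mod_eq_of_lt b1.2]
  have hdiv : Q b1 false % B = k / Y.m := by
    rw [← e6, Nat.mul_add_div Y.hm, Nat.div_eq_of_lt b1.2, add_zero]
  subst hres
  have hg : Y.a (Y.res k) * (Q (Y.res k) false % B) + Y.e (Y.res k) = Y.g k := by
    rw [hdiv]; rfl
  rw [hg] at e7
  refine ⟨hb1, ?_, ⟨h.dL.div β, fun b => (h.dQ b).div β, e1b, fun b => (e2 b).2, e7⟩, ?_⟩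
  · intro b i
    unfold q0
    split_ifs with hb hi
    · subst hb; subst hi; omega
    · subst hb
      have : i = false := by simpa using hi
      subst this
      exact hdiv
    · exact hq b i hb
  · rw [← hg]
    have h6 : Q (Y.res k) false % B + 1 ≤ 2 ^ c := by omega
    have h8 := hB.ha (Y.res k)
    have h9 : Y.a (Y.res k) * (Q (Y.res k) false % B) ≤ Y.a (Y.res k) * 2 ^ c :=
      Nat.mul_le_mul_left _ (by omega)
    have h10 : Y.e (Y.res k) ≤ Y.e (Y.res k) * 2 ^ c := Nat.le_mul_of_pos_right _ hc0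
    rw [add_mul] at h8
    omega

theorem Sol.zero {k : ℕ} {L : Fin Y.m → ℕ} {Q : Fin Y.m → Bool → ℕ} (h : Sol Y β c 0 k L Q) :
    L = (fun _ => 0) ∧ Q = (fun _ _ => 0) ∧ k = 0 := by
  have h1 : ∀ b, L b = 0 := by
    intro b
    have := h.s1
    rw [range_zero, sum_empty, Finset.sum_eq_zero_iff] at this
    exact this b (Finset.mem_univ b)
  have h2 : ∀ b i, Q b i = 0 := by
    intro b i
    have := h.s2 b
    rw [h1 b, mul_zero] at this
    cases i <;> omega
  refine ⟨funext h1, funext fun b => funext fun i => h2 b i, ?_⟩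
  have := h.s3
  simp only [h1, h2, mul_zero, add_zero, sum_const_zero] at this
  exact this.symm

theorem Sol.sound (hB : Big Y β c) : ∀ (M k : ℕ) (L : Fin Y.m → ℕ) (Q : Fin Y.m → Bool → ℕ),
    k < 2 ^ β → Sol Y β c M k L Q → Y.g^[M] k = 0 := by
  intro M
  induction M with
  | zero =>
    intro k L Q _ h
    exact h.zero.2.2
  | succ M ih =>
    intro k L Q hk h
    obtain ⟨_, _, h3, h4⟩ := h.step hB hk
    rw [Function.iterate_succ_apply]
    exact ih _ _ _ h4 h3

theorem Sol.unique (hB : Big Y β c) : ∀ (M k : ℕ) (L L' : Fin Y.m → ℕ)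
    (Q Q' : Fin Y.m → Bool → ℕ), k < 2 ^ β → Sol Y β c M k L Q → Sol Y β c M k L' Q' →
      L = L' ∧ Q = Q' := by
  intro M
  induction M with
  | zero =>
    intro k L L' Q Q' _ h h'
    rw [h.zero.1, h.zero.2.1, h'.zero.1, h'.zero.2.1]
    exact ⟨rfl, rfl⟩
  | succ M ih =>
    intro k L L' Q Q' hk h h'
    obtain ⟨h1, h2, h3, h4⟩ := h.step hB hk
    obtain ⟨h1', h2', h3', _⟩ := h'.step hB hk
    obtain ⟨i1, i2⟩ := ih _ _ _ _ _ h4 h3 h3'
    constructor
    · funext b
      rw [← Nat.mod_add_div (L b) (2 ^ β), ← Nat.mod_add_div (L' b) (2 ^ β), h1, h1',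
        congrFun i1 b]
    · funext b i
      rw [← Nat.mod_add_div (Q b i) (2 ^ β), ← Nat.mod_add_div (Q' b i) (2 ^ β), h2, h2',
        congrFun (congrFun i2 b) i]

theorem exists_sol (hB : Big Y β c) : ∀ (M k : ℕ), (∀ t < M, Y.g^[t] k < 2 ^ c) →
    Y.g^[M] k = 0 → ∃ L Q, Sol Y β c M k L Q := by
  have h2c : 2 ^ c ≤ 2 ^ β := le_trans (Nat.le_mul_of_pos_left _ Y.hm) hB.hm
  have hc0 : 0 < 2 ^ c := by positivity
  have hB1 : 1 < 2 ^ β := by
    calc 1 < 2 ^ 1 := by norm_num
      _ ≤ 2 ^ β := Nat.pow_le_pow_right (by norm_num) hB.pos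
  intro M
  induction M with
  | zero =>
    intro k _ h
    refine ⟨fun _ => 0, fun _ _ => 0, dis_zero, fun _ => dis_zero, by simp, by simp, ?_⟩
    have : k = 0 := h
    simp [this]
  | succ M ih =>
    intro k hk h
    rw [Function.iterate_succ_apply] at h
    obtain ⟨L, Q, hS⟩ := ih (Y.g k) (fun t ht => by
      have := hk (t + 1) (by omega)
      rwa [Function.iterate_succ_apply] at this) h
    have hk0 : k < 2 ^ c := hk 0 (by omega)
    have hkm : k / Y.m < 2 ^ c := lt_of_le_of_lt (Nat.div_le_self _ _) hk0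
    refine ⟨fun b => (if b = Y.res k then 1 else 0) + 2 ^ β * L b,
      fun b i => q0 Y c k b i + 2 ^ β * Q b i, ?_, ?_, ?_, ?_, ?_⟩
    · exact (dis_single _).add (fun b => by split_ifs <;> omega) hS.dL
    · intro b
      refine Dis.add (y := fun i => q0 Y c k b i) ?_ ?_ (hS.dQ b)
      · unfold q0
        by_cases hb : b = Y.res k
        · simp only [hb, if_true]
          exact dis_compl c _ hkm
        · simp only [hb, if_false]
          exact dis_zero
      · intro i
        unfold q0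
        split_ifs
        · exact lt_of_lt_of_le (by
            have h7 := Nat.sub_le (2 ^ c - 1) (k / Y.m)
            omega) h2c
        · exact lt_of_lt_of_le hkm h2c
        · omega
    · rw [geom_succ, sum_add_distrib, ← mul_sum, hS.s1]
      simp
    · intro b
      have := hS.s2 b
      unfold q0
      simp only [Bool.false_eq_true, if_false, if_true]
      split_ifs with hb
      · have e : (2 ^ c - 1) * (1 + 2 ^ β * L b) =
            (2 ^ c - 1) + 2 ^ β * ((2 ^ c - 1) * L b) := by ring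
        rw [e, ← this]
        have : k / Y.m + (2 ^ c - 1 - k / Y.m) = 2 ^ c - 1 := by omega
        nth_rewrite 2 [← this]
        ring
      · have e : (2 ^ c - 1) * (0 + 2 ^ β * L b) = 2 ^ β * ((2 ^ c - 1) * L b) := by ring
        rw [e, ← this]
        ring
    · have t1 : ∑ b, (Y.m * q0 Y c k b false + (b : ℕ) * (if b = Y.res k then 1 else 0)) = k := by
        rw [Finset.sum_eq_single (Y.res k)]
        · unfold q0
          simp only [if_true, Bool.false_eq_true, if_false, mul_one]
          exact Nat.div_add_mod k Y.m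
        · intro b _ hb
          unfold q0
          simp [hb]
        · intro hh; exact absurd (Finset.mem_univ _) hh
      have t2 : ∑ b, (Y.a b * q0 Y c k b false + Y.e b * (if b = Y.res k then 1 else 0)) =
          Y.g k := by
        rw [Finset.sum_eq_single (Y.res k)]
        · unfold q0 Tab.g
          simp only [if_true, Bool.false_eq_true, if_false, mul_one]
        · intro b _ hb
          unfold q0
          simp [hb]
        · intro hh; exact absurd (Finset.mem_univ _) hh
      have u1 : ∑ b, (Y.m * (q0 Y c k b false + 2 ^ β * Q b false) +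
          (b : ℕ) * ((if b = Y.res k then 1 else 0) + 2 ^ β * L b)) =
          ∑ b, (Y.m * q0 Y c k b false + (b : ℕ) * (if b = Y.res k then 1 else 0)) +
            2 ^ β * ∑ b, (Y.m * Q b false + b * L b) := by
        rw [mul_sum, ← sum_add_distrib]
        exact Finset.sum_congr rfl fun b _ => by ring
      have u2 : ∑ b, (Y.a b * (q0 Y c k b false + 2 ^ β * Q b false) +
          Y.e b * ((if b = Y.res k then 1 else 0) + 2 ^ β * L b)) =
          ∑ b, (Y.a b * q0 Y c k b false + Y.e b * (if b = Y.res k then 1 else 0)) +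
            2 ^ β * ∑ b, (Y.a b * Q b false + Y.e b * L b) := by
        rw [mul_sum, ← sum_add_distrib]
        exact Finset.sum_congr rfl fun b _ => by ring
      rw [u1, u2, t1, t2, hS.s3]

end Pool.Agent.KS6_35.OV
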